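import Mathlib.Algebra.Torsor.Defs
import Mathlib.RingTheory.IntegralDomain
import Mathlib.Algebra.Field.ZMod
import Mathlib.Algebra.Order.Ring.Star
import Mathlib.GroupTheory.Solvable
import Mathlib.GroupTheory.FiniteAbelian.Basic
import Mathlib.Data.ZMod.Units
import Mathlib.Tactic.NormNum.Prime
import Mathlib.Data.Nat.Choose.Dvd
import Mathlib.GroupTheory.Abelianization.Finite

-- ======== part 0: formerly Pool.Agent.MP_f56020_al.Basic
section MrgPart0

namespace Pool.Agent.SQ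

open Multiset

/-- `Pth op x y V M`: a walk from `x` to `y`; `V` collects the vertices after the first,
`M` the labels `op a b` of the steps `a → b`. -/
inductive Pth {α : Type*} (op : α → α → α) : α → α → Multiset α → Multiset α → Prop
  | nil (x : α) : Pth op x x 0 0
  | cons (x : α) {y z : α} {V M : Multiset α} :
      Pth op y z V M → Pth op x z ({y} + V) ({op x y} + M)

namespace Pth

variable {α β : Type*} {op : α → α → α} {x y z : α} {V M V' M' : Multiset α}

theorem cast (h : Pth op x y V M) (hV : V = V') (hM : M = M') : Pth op x y V' M' := by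
  subst hV hM; exact h

theorem edge (op : α → α → α) (x y : α) : Pth op x y {y} {op x y} :=
  (Pth.cons x (Pth.nil y)).cast (by simp) (by simp)

theorem trans (h : Pth op x y V M) (h' : Pth op y z V' M') : Pth op x z (V + V') (M + M') := by
  induction h with
  | nil x => simpa using h'
  | cons x _ ih => exact (Pth.cons x (ih h')).cast (by abel) (by abel)

theorem map {op' : β → β → β} (f g : α → β) (hf : ∀ a b, op' (f a) (f b) = g (op a b))
    (h : Pth op x y V M) : Pth op' (f x) (f y) (V.map f) (M.map g) := by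
  induction h with
  | nil x => simpa using Pth.nil _
  | cons x _ ih => exact (Pth.cons (f x) ih).cast (by simp) (by simp [hf])

theorem splitV (h : Pth op x y V M) {v : α} (hv : v ∈ V) :
    ∃ V1 V2 M1 M2, Pth op x v V1 M1 ∧ Pth op v y V2 M2 ∧ V = V1 + V2 ∧ M = M1 + M2 := by
  induction h with
  | nil x => simp at hv
  | @cons x y z V M h ih =>
    rcases mem_add.1 hv with hv | hv
    · rw [mem_singleton] at hv
      subst hv
      exact ⟨_, _, _, _, edge op x v, h, rfl, rfl⟩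
    · obtain ⟨V1, V2, M1, M2, h1, h2, rfl, rfl⟩ := ih hv
      exact ⟨_, _, _, _, Pth.cons x h1, h2, by abel, by abel⟩

theorem cutM (h : Pth op x y V M) {m : α} (hm : m ∈ M) :
    ∃ a b V1 V2 M1 M2, Pth op x a V1 M1 ∧ Pth op b y V2 M2 ∧ op a b = m ∧
      V = V1 + {b} + V2 ∧ M = M1 + {m} + M2 := by
  induction h with
  | nil x => simp at hm
  | @cons x y z V M h ih =>
    rcases mem_add.1 hm with hm | hm
    · rw [mem_singleton] at hm
      subst hm
      exact ⟨x, y, _, _, _, _, Pth.nil x, h, rfl, by simp, by simp⟩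
    · obtain ⟨a, b, V1, V2, M1, M2, h1, h2, h3, rfl, rfl⟩ := ih hm
      exact ⟨a, b, _, _, _, _, Pth.cons x h1, h2, h3, by abel, by abel⟩

theorem eq_of_zero (h : Pth op x y V M) (hV : V = 0) : x = y := by
  cases h with
  | nil => rfl
  | cons x h => simp at hV

theorem first (h : Pth op x y V M) (hV : V ≠ 0) :
    ∃ b V' M', Pth op b y V' M' ∧ V = {b} + V' ∧ M = {op x b} + M' := by
  cases h with
  | nil => simp at hV
  | cons x h => exact ⟨_, _, _, h, rfl, rfl⟩

theorem last (h : Pth op x y V M) (hV : V ≠ 0) :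
    ∃ b V' M', Pth op x b V' M' ∧ V = V' + {y} ∧ M = M' + {op b y} := by
  induction h with
  | nil x => simp at hV
  | @cons x y z V M h ih =>
    by_cases h0 : V = 0
    · have hM : M = 0 := by
        cases h with
        | nil => rfl
        | cons x h => simp at h0
      obtain rfl := h.eq_of_zero h0
      exact ⟨x, 0, 0, Pth.nil x, by simp [h0], by simp [hM]⟩
    · obtain ⟨b, V', M', h1, rfl, rfl⟩ := ih h0
      exact ⟨b, _, _, Pth.cons x h1, by abel, by abel⟩

theorem rotate (h : Pth op x x V M) {v : α} (hv : v ∈ V) : Pth op v v V M := by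
  obtain ⟨V1, V2, M1, M2, h1, h2, rfl, rfl⟩ := h.splitV hv
  exact (h2.trans h1).cast (add_comm _ _) (add_comm _ _)

/-- In a closed walk, cut a step with a given label. -/
theorem cut_cyc (h : Pth op x x V M) {m : α} (hm : m ∈ M) :
    ∃ a b V' M', Pth op b a V' M' ∧ op a b = m ∧ V = {b} + V' ∧ M = {m} + M' := by
  obtain ⟨a, b, V1, V2, M1, M2, h1, h2, h3, rfl, rfl⟩ := h.cutM hm
  exact ⟨a, b, _, _, h2.trans h1, h3, by abel, by abel⟩

theorem seq (op : α → α → α) (g : ℕ → α) (i k : ℕ) :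
    Pth op (g i) (g (i + k)) (∑ j ∈ Finset.range k, {g (i + j + 1)})
      (∑ j ∈ Finset.range k, {op (g (i + j)) (g (i + j + 1))}) := by
  induction k with
  | zero => simpa using Pth.nil _
  | succ k ih =>
    rw [Finset.sum_range_succ, Finset.sum_range_succ]
    exact ih.trans (edge op _ _)

/-- A walk from inside a set to outside it has a step leaving the set. -/
theorem exists_step (h : Pth op x y V M) (P : α → Prop) (hx : P x) (hy : ¬ P y) :
    ∃ a b V1 V2 M1 M2, Pth op x a V1 M1 ∧ Pth op b y V2 M2 ∧ P a ∧ ¬ P b ∧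
      V = V1 + {b} + V2 ∧ M = M1 + {op a b} + M2 := by
  induction h with
  | nil x => exact absurd hx hy
  | @cons x y z V M h ih =>
    by_cases hP : P y
    · obtain ⟨a, b, V1, V2, M1, M2, h1, h2, h3, h4, rfl, rfl⟩ := ih hP hy
      exact ⟨a, b, _, _, _, _, Pth.cons x h1, h2, h3, h4, by abel, by abel⟩
    · exact ⟨x, y, _, _, _, _, Pth.nil x, h, hx, hP, by simp, by simp⟩

end Pth

/-- The label of a step in a group. -/
def ld {G : Type*} [Group G] (a b : G) : G := a⁻¹ * b

section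
variable {G : Type*} [Group G] {x y : G} {V M : Multiset G}

theorem Pth.rev (h : Pth ld x y V M) :
    ∃ V', Pth ld y x V' (M.map (·⁻¹)) ∧ V' + {y} = V + {x} := by
  induction h with
  | nil x => exact ⟨0, by simpa using Pth.nil _, rfl⟩
  | @cons x y z V M h ih =>
    obtain ⟨V', h1, h2⟩ := ih
    refine ⟨V' + {x}, (h1.trans (Pth.edge ld y x)).cast rfl ?_, ?_⟩
    · simp [ld, add_comm]
    · rw [add_right_comm, h2]; abel

theorem Pth.shift (a : G) (h : Pth ld x y V M) :
    Pth ld (a * x) (a * y) (V.map (a * ·)) M :=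
  (h.map (op' := ld) (a * ·) id (fun b c => by simp [ld, mul_assoc])).cast rfl (by simp)

theorem Pth.hom {A : Type*} [Group A] (f : G →* A) (h : Pth ld x y V M) :
    Pth ld (f x) (f y) (V.map f) (M.map f) :=
  h.map f f (fun b c => by simp [ld])

theorem Pth.prod {A : Type*} [CommGroup A] (f : G →* A) (h : Pth ld x y V M) :
    f (x⁻¹ * y) = (M.map f).prod := by
  induction h with
  | nil x => simp
  | @cons x y z V M h ih =>
    rw [map_add, prod_add, ← ih]
    simp [ld, mul_assoc]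

theorem Pth.toList (h : Pth ld x y V M) :
    ∃ l : List G, (l : Multiset G) = M ∧
      ((List.ofFn fun i : Fin l.length => x * (l.take (i + 1)).prod : List G) : Multiset G) = V := by
  induction h with
  | nil x => exact ⟨[], rfl, by simp⟩
  | @cons x y z V M h ih =>
    obtain ⟨l, h1, h2⟩ := ih
    refine ⟨ld x y :: l, by rw [← h1]; rfl, ?_⟩
    rw [← h2]
    simp only [List.length_cons, List.ofFn_succ, singleton_add, cons_coe]
    congr 2
    · simp [ld]
    · congr 1
      funext i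
      simp [ld, mul_assoc]

end

/-- The multiset of the elements of a finite type with a property. -/
noncomputable def st {α : Type*} [Finite α] (p : α → Prop) : Multiset α :=
  (Set.toFinite {a | p a}).toFinset.val

/-- All the elements. -/
noncomputable abbrev al (α : Type*) [Finite α] : Multiset α := st fun _ => True

section
variable {α β : Type*} [Finite α] {p q : α → Prop}

@[simp] theorem mem_st {a : α} : a ∈ st p ↔ p a := by
  simp [st]

theorem nodup_st (p : α → Prop) : (st p).Nodup := Finset.nodup _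

theorem eq_st {m : Multiset α} (h : m.Nodup) (h' : ∀ a, a ∈ m ↔ p a) : m = st p :=
  (Nodup.ext h (nodup_st p)).2 fun a => by simp [h']

theorem st_congr (h : ∀ a, p a ↔ q a) : st p = st q :=
  eq_st (nodup_st p) fun a => by simp [h]

theorem st_add {r : α → Prop} (hd : ∀ a, p a → ¬ q a) (h : ∀ a, r a ↔ p a ∨ q a) :
    st p + st q = st r := by
  refine eq_st (nodup_add.2 ⟨nodup_st _, nodup_st _, ?_⟩) fun a => by simp [h]
  rw [disjoint_left]
  intro a ha hb
  exact hd a (mem_st.1 ha) (mem_st.1 hb)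

theorem single_eq_st (a : α) : ({a} : Multiset α) = st (· = a) :=
  eq_st (nodup_singleton a) (by simp)

theorem map_st [Finite β] {r : β → Prop} {f : α → β} (hf : Function.Injective f)
    (h : ∀ b, r b ↔ ∃ a, p a ∧ f a = b) : (st p).map f = st r :=
  eq_st ((nodup_st p).map hf) fun b => by simp [h]

theorem map_al {f : α → α} (hf : Function.Injective f) : (al α).map f = al α :=
  map_st hf fun b => by
    simpa using Finite.surjective_of_injective hf b

theorem card_al : card (al α) = Nat.card α := by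
  have := Fintype.ofFinite α
  have h : al α = Finset.univ.val := (eq_st Finset.univ.nodup (by simp)).symm
  rw [h, Nat.card_eq_fintype_card]
  rfl

theorem count_st [DecidableEq α] [DecidablePred p] (a : α) :
    count a (st p) = if p a then 1 else 0 := by
  rw [count_eq_of_nodup (nodup_st p)]
  simp

omit [Finite α] in
theorem sum_single (s : Finset β) (f : β → α) : (∑ i ∈ s, {f i} : Multiset α) = s.val.map f := by
  classical
  induction s using Finset.induction_on with
  | empty => simp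
  | insert a s ha ih => rw [Finset.sum_insert ha, ih, Finset.insert_val_of_notMem ha]; simp

theorem seq_eq_st (f : ℕ → α) (N : ℕ) (hi : ∀ i < N, ∀ j < N, f i = f j → i = j)
    (hp : ∀ i < N, p (f i)) (hc : card (st p) ≤ N) :
    (∑ i ∈ Finset.range N, {f i} : Multiset α) = st p := by
  rw [sum_single]
  have hn : ((Finset.range N).val.map f).Nodup :=
    Nodup.map_on (fun i h j h' => hi i (by simpa using h) j (by simpa using h'))
      (Finset.range N).nodup
  refine eq_of_le_of_card_le ((le_iff_subset hn).2 ?_) (by simpa using hc)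
  intro a ha
  obtain ⟨i, h, rfl⟩ := mem_map.1 ha
  exact mem_st.2 (hp i (by simpa using h))

theorem card_ne (a : α) : card (st (· ≠ a)) + 1 = Nat.card α := by
  have h : st (· ≠ a) + st (· = a) = al α := st_add (by simp) (fun b => by simp [em'])
  rw [← card_al, ← h, ← single_eq_st]
  simp

end

theorem bind_sum {α β γ : Type*} (W : Multiset α) (s : Finset β) (g : α → β → γ) :
    (W.bind fun u => ∑ j ∈ s, ({g u j} : Multiset γ)) = ∑ j ∈ s, W.map (g · j) := by
  classical
  induction s using Finset.induction_on with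
  | empty => simp
  | insert a s ha ih => simp only [Finset.sum_insert ha, bind_add, ih, bind_singleton]

theorem sum_shift {A : Type*} [AddCancelCommMonoid A] (F : ℕ → A) (N : ℕ)
    (h : ∀ i, F (i + N) = F i) (k : ℕ) :
    ∑ i ∈ Finset.range N, F (k + i) = ∑ i ∈ Finset.range N, F i := by
  induction k with
  | zero => simp
  | succ k ih =>
    rw [← ih]
    have h1 := Finset.sum_range_succ (fun i => F (k + i)) N
    have h2 := Finset.sum_range_succ' (fun i => F (k + i)) N
    rw [h1, h, add_zero] at h2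
    rw [add_right_cancel h2]
    exact Finset.sum_congr rfl fun i _ => by rw [add_assoc, add_comm 1 i]

theorem sum_pairs {A : Type*} [AddCommMonoid A] (F : ℕ → A) (n : ℕ) :
    ∑ i ∈ Finset.range (2 * n), F i = ∑ k ∈ Finset.range n, (F (2 * k) + F (2 * k + 1)) := by
  induction n with
  | zero => simp
  | succ n ih =>
    rw [show 2 * (n + 1) = 2 * n + 1 + 1 by ring, Finset.sum_range_succ, Finset.sum_range_succ,
      ih, Finset.sum_range_succ, add_assoc]

end Pool.Agent.SQ

end MrgPart0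

-- ======== part 1: formerly Pool.Agent.MP_f56020_al.Skel
section MrgPart1

namespace Pool.Agent.SQ

open Multiset

universe u

/-- A cyclic ordering of the group whose consecutive products are all distinct. -/
def Harm (K : Type*) [Group K] [Finite K] : Prop :=
  Pth (· * ·) (1 : K) 1 (al K) (al K)

section chain
variable {K G : Type*} [Group K] {op : G → G → G} {α β γ : K → G} {V M : K → Multiset G}

theorem chain (hL : ∀ u, Pth op (α u) (β u) (V u) (M u))
    (hγ : ∀ u v, op (β u) (α v) = γ (u * v)) {s t : K} {W N : Multiset K}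
    (h : Pth (· * ·) s t W N) :
    Pth op (β s) (β t) (W.bind fun u => {α u} + V u) (W.bind M + N.map γ) := by
  induction h with
  | nil x => simpa using Pth.nil _
  | @cons x y z W N h ih =>
    refine (((Pth.edge op (β x) (α y)).trans (hL y)).trans ih).cast ?_ ?_
    · rw [add_bind, singleton_bind]
    · rw [add_bind, singleton_bind, map_add, map_singleton, hγ]; abel

theorem chain_to (hL : ∀ u, Pth op (α u) (β u) (V u) (M u))
    (hγ : ∀ u v, op (β u) (α v) = γ (u * v)) {s t : K} {W N : Multiset K}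
    (h : Pth (· * ·) s t W N) (hW : W ≠ 0) :
    ∃ VX MX, Pth op (β s) (α t) VX MX ∧ VX + V t = (W.bind fun u => {α u} + V u) ∧
      MX + M t = W.bind M + N.map γ := by
  obtain ⟨b, W', N', h1, rfl, rfl⟩ := h.last hW
  refine ⟨_, _, (chain hL hγ h1).trans (Pth.edge op (β b) (α t)), ?_, ?_⟩
  · rw [add_bind, singleton_bind]; abel
  · rw [add_bind, singleton_bind, map_add, map_singleton, hγ]; abel

end chain

section skel
variable {K G : Type*} [Group K] [Finite K] [Group G]

/-- The translate `a · ι(K) · b` as a multiset. -/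
noncomputable def cos (ι : K →* G) (a b : G) : Multiset G := (al K).map fun u => a * ι u * b

theorem cos_bij (ι : K →* G) (a b : G) {f : K → K} (hf : Function.Injective f) :
    (al K).map (fun u => a * ι (f u) * b) = cos ι a b := by
  conv_rhs => rw [cos, ← map_al hf, map_map]
  rfl

omit [Finite K] in
theorem sq_inj (ho : Odd (Nat.card K)) : Function.Injective fun u : K => u * u := by
  have h := (Nat.Coprime.pow_left_bijective (G := K) (n := 2) (by
    simpa [Nat.coprime_two_right] using ho)).injective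
  intro a b hab
  apply h
  simpa [sq] using hab

/-- Alternately an element and its inverse. -/
def sg (j : ℕ) (u : K) : K := if Even j then u else u⁻¹

omit [Finite K] in
theorem sg_succ (j : ℕ) (u : K) : sg (j + 1) u = (sg j u)⁻¹ := by
  unfold sg
  by_cases h : Even j <;> simp [h, Nat.even_add_one]

omit [Finite K] in
theorem sg_one (j : ℕ) : sg j (1 : K) = 1 := by
  unfold sg; simp

omit [Finite K] in
theorem sg_zero (u : K) : sg 0 u = u := by
  unfold sg; simp

omit [Finite K] in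
theorem sg_sg (j : ℕ) (u : K) : sg j (sg j u) = u := by
  unfold sg; split_ifs <;> simp

omit [Finite K] in
theorem sg_inj (j : ℕ) : Function.Injective (sg j : K → K) :=
  Function.LeftInverse.injective (sg_sg j)

omit [Finite K] in
theorem sg_odd {j : ℕ} (h : Odd j) (u : K) : sg j u = u⁻¹ := by
  unfold sg; rw [if_neg (Nat.not_even_iff_odd.2 h)]

/-- The `j`-th vertex of layer `u`. -/
def lay (ι : K →* G) (τ : ℕ → G) (u : K) (j : ℕ) : G := ι (sg j u) * τ j

omit [Finite K] in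
theorem lay_one (ι : K →* G) (τ : ℕ → G) : lay ι τ 1 = τ := by
  funext j; simp [lay, sg_one]

/-- The vertices after the first of a piece of a sequence. -/
def sV (g : ℕ → G) (i k : ℕ) : Multiset G := ∑ j ∈ Finset.range k, {g (i + j + 1)}

/-- The labels of a piece of a sequence. -/
def sM (g : ℕ → G) (i k : ℕ) : Multiset G :=
  ∑ j ∈ Finset.range k, {ld (g (i + j)) (g (i + j + 1))}

theorem seg (g : ℕ → G) (i k : ℕ) {j : ℕ} (h : i + k = j) :
    Pth ld (g i) (g j) (sV g i k) (sM g i k) := h ▸ Pth.seq ld g i k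

theorem seq0 (g : ℕ → G) (n : ℕ) : Pth ld (g 0) (g n) (sV g 0 n) (sM g 0 n) :=
  seg g 0 n (zero_add n)

omit [Group G] in
theorem sV_cut (g : ℕ → G) (i k l : ℕ) {n j : ℕ} (hn : n = k + 1 + l) (hj : j = i + k + 1) :
    sV g i n = sV g i k + {g j} + sV g j l := by
  subst hn hj
  rw [sV, Finset.sum_range_add, Finset.sum_range_succ]
  simp only [sV, add_assoc]

theorem sM_cut (g : ℕ → G) (i k l : ℕ) {n j' j : ℕ} (hn : n = k + 1 + l) (hj' : j' = i + k)
    (hj : j = i + k + 1) : sM g i n = sM g i k + {ld (g j') (g j)} + sM g j l := by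
  subst hn hj hj'
  rw [sM, Finset.sum_range_add, Finset.sum_range_succ]
  simp only [sM, add_assoc]

omit [Group G] in
theorem sV_zero (g : ℕ → G) (i : ℕ) : sV g i 0 = 0 := by simp [sV]

theorem sM_zero (g : ℕ → G) (i : ℕ) : sM g i 0 = 0 := by simp [sM]

/-- All lifted vertices. -/
noncomputable def totV (ι : K →* G) (τ : ℕ → G) (N : ℕ) : Multiset G :=
  ∑ i ∈ Finset.range N, cos ι 1 (τ i)

/-- All lifted labels. -/
noncomputable def totM (ι : K →* G) (τ : ℕ → G) (N : ℕ) : Multiset G :=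
  ∑ i ∈ Finset.range N, cos ι (τ i)⁻¹ (τ (i + 1))

theorem bindV (ι : K →* G) (τ : ℕ → G) (n : ℕ) :
    ((al K).bind fun u => {lay ι τ u 0} + sV (lay ι τ u) 0 n) = totV ι τ (n + 1) := by
  have h : ∀ u, {lay ι τ u 0} + sV (lay ι τ u) 0 n
      = ∑ j ∈ Finset.range (n + 1), ({lay ι τ u j} : Multiset G) := by
    intro u
    rw [Finset.sum_range_succ', add_comm]; simp [sV]
  simp only [h]
  rw [bind_sum, totV]
  refine Finset.sum_congr rfl fun j _ => ?_
  rw [← cos_bij ι 1 (τ j) (sg_inj j)]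
  simp [lay]

theorem bindM (ho : Odd (Nat.card K)) (ι : K →* G) (τ : ℕ → G) (n : ℕ) (hτ : τ (n + 1) = τ 0) :
    ((al K).bind fun u => sM (lay ι τ u) 0 n) + (al K).map (fun v => (τ n)⁻¹ * ι v * τ 0)
      = totM ι τ (n + 1) := by
  rw [totM, Finset.sum_range_succ, hτ]
  congr 1
  simp only [sM, zero_add]
  rw [bind_sum]
  refine Finset.sum_congr rfl fun j _ => ?_
  have hi : Function.Injective fun u : K => (sg j u)⁻¹ * (sg j u)⁻¹ :=
    (sq_inj ho).comp (inv_injective.comp (sg_inj j))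
  rw [← cos_bij ι _ _ hi]
  simp [lay, ld, sg_succ, mul_assoc]

omit [Finite K] in
theorem lay_close (ι : K →* G) (τ : ℕ → G) {n : ℕ} (hn : Odd n) (u v : K) :
    ld (lay ι τ u n) (lay ι τ v 0) = (τ n)⁻¹ * ι (u * v) * τ 0 := by
  simp [lay, ld, sg_odd hn, sg_zero, mul_assoc]

theorem al_ne_zero : al K ≠ 0 := fun h => by
  have : (1 : K) ∈ al K := mem_st.2 trivial
  simp [h] at this

/-- The lifted cycle with the layer of the identity taken out. -/
theorem skel1 (hK : Harm K) (ho : Odd (Nat.card K)) (ι : K →* G) (τ : ℕ → G) {n : ℕ}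
    (hn : Odd n) (hτ : τ (n + 1) = τ 0) :
    ∃ V M, Pth ld (τ n) (τ 0) V M ∧ V + sV τ 0 n = totV ι τ (n + 1) ∧
      M + sM τ 0 n = totM ι τ (n + 1) := by
  obtain ⟨V, M, h1, h2, h3⟩ := chain_to (fun u => seq0 (lay ι τ u) n)
    (γ := fun v => (τ n)⁻¹ * ι v * τ 0) (lay_close ι τ hn) hK al_ne_zero
  rw [bindV] at h2
  rw [bindM ho ι τ n hτ] at h3
  rw [lay_one] at h1 h2 h3
  exact ⟨V, M, h1, h2, h3⟩

/-- The lifted cycle with two layers taken out. -/
theorem skel2 (hK : Harm K) (ho : Odd (Nat.card K)) (ι : K →* G) (τ : ℕ → G) {n : ℕ}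
    (hn : Odd n) (hτ : τ (n + 1) = τ 0) {t : K} (ht : t ≠ 1) :
    ∃ VX MX VY MY, Pth ld (τ n) (lay ι τ t 0) VX MX ∧ Pth ld (lay ι τ t n) (τ 0) VY MY ∧
      VX + VY + sV τ 0 n + sV (lay ι τ t) 0 n = totV ι τ (n + 1) ∧
      MX + MY + sM τ 0 n + sM (lay ι τ t) 0 n = totM ι τ (n + 1) := by
  obtain ⟨W1, W2, N1, N2, p1, p2, hW, hN⟩ := Pth.splitV hK (v := t) (mem_st.2 trivial)
  obtain ⟨VX, MX, h1, h2, h3⟩ := chain_to (fun u => seq0 (lay ι τ u) n)
    (γ := fun v => (τ n)⁻¹ * ι v * τ 0) (lay_close ι τ hn) p1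
    (fun h => ht (p1.eq_of_zero h).symm)
  obtain ⟨VY, MY, k1, k2, k3⟩ := chain_to (fun u => seq0 (lay ι τ u) n)
    (γ := fun v => (τ n)⁻¹ * ι v * τ 0) (lay_close ι τ hn) p2
    (fun h => ht (p2.eq_of_zero h))
  rw [lay_one] at h1 k1 k2 k3
  refine ⟨VX, MX, VY, MY, h1, k1, ?_, ?_⟩
  · rw [← bindV, hW, add_bind, ← h2, ← k2]; abel
  · rw [← bindM ho ι τ n hτ]
    have e : ((al K).bind fun u => sM (lay ι τ u) 0 n) + (al K).map (fun v => (τ n)⁻¹ * ι v * τ 0)
        = ((W1 + W2).bind fun u => sM (lay ι τ u) 0 n)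
          + (N1 + N2).map (fun v => (τ n)⁻¹ * ι v * τ 0) := by rw [← hW, ← hN]
    rw [e, add_bind, map_add, add_add_add_comm, ← h3, ← k3]; abel

end skel

section fib
variable {G Q : Type*} [Group G] [Finite G] [Group Q]

theorem cos_ker (φ : G →* Q) (a b : G) :
    cos φ.ker.subtype a b = st fun g => φ g = φ a * φ b := by
  refine map_st (fun u v h => by simpa using h) fun g => ⟨fun h => ?_, ?_⟩
  · refine ⟨⟨a⁻¹ * g * b⁻¹, by simp [MonoidHom.mem_ker, h]⟩, trivial, by simp [mul_assoc]⟩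
  · rintro ⟨⟨u, hu⟩, -, rfl⟩
    simp [MonoidHom.mem_ker.1 hu]

omit [Group G] [Group Q] in
theorem sum_fib [Finite Q] (φ : G → Q) {β : Type*} (s : Finset β) (f : β → Q) (p : Q → Prop)
    (h : (∑ i ∈ s, {f i} : Multiset Q) = st p) :
    ∑ i ∈ s, st (fun g => φ g = f i) = st fun g => p (φ g) := by
  classical
  ext g
  have h1 := congrArg (count (φ g)) h
  rw [count_sum', count_st] at h1
  rw [count_sum', count_st, ← h1]
  refine Finset.sum_congr rfl fun i _ => ?_
  rw [count_st, count_singleton]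

end fib

section solv

theorem exists_zmod_of_dvd (A : Type*) [CommGroup A] [Finite A] {p : ℕ} (hp : p.Prime)
    (h : p ∣ Nat.card A) : ∃ φ : A →* Multiplicative (ZMod p), Function.Surjective φ := by
  obtain ⟨ι, _, n, hn, ⟨e⟩⟩ := CommGroup.equiv_prod_multiplicative_zmod_of_finite A
  rw [Nat.card_congr e.toEquiv, Nat.card_pi] at h
  obtain ⟨i, -, hi⟩ := (Prime.dvd_finsetProd_iff hp.prime _).1 h
  have hi' : p ∣ n i := by
    rwa [Nat.card_congr Multiplicative.toAdd, Nat.card_zmod] at hi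
  refine ⟨(AddMonoidHom.toMultiplicative (ZMod.castHom hi' (ZMod p)).toAddMonoidHom).comp
    ((Pi.evalMonoidHom _ i).comp e.toMonoidHom), ?_⟩
  refine Function.Surjective.comp (g := fun x => Multiplicative.ofAdd (ZMod.castHom hi' (ZMod p)
    (Multiplicative.toAdd x))) ?_ ((Function.surjective_eval i).comp e.surjective)
  exact Multiplicative.ofAdd.surjective.comp
    ((ZMod.castHom_surjective hi').comp Multiplicative.toAdd.surjective)

theorem nontrivial_ab (G : Type*) [Group G] [Group.IsSolvable G] [Nontrivial G] :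
    Nontrivial (Abelianization G) := by
  have h := Group.IsSolvable.commutator_lt_top_of_nontrivial G
  exact QuotientGroup.nontrivial_iff.2 h.ne

theorem exists_zmod (G : Type*) [Group G] [Finite G] [Group.IsSolvable G] [Nontrivial G] :
    ∃ p : ℕ, p.Prime ∧ ∃ φ : G →* Multiplicative (ZMod p), Function.Surjective φ := by
  have := nontrivial_ab G
  have h1 : Nat.card (Abelianization G) ≠ 1 := Finite.one_lt_card.ne'
  obtain ⟨φ, hφ⟩ := exists_zmod_of_dvd (Abelianization G) (Nat.minFac_prime h1) (Nat.minFac_dvd _)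
  exact ⟨_, Nat.minFac_prime h1, φ.comp Abelianization.of,
    hφ.comp (QuotientGroup.mk_surjective)⟩

theorem odd_sub {G : Type*} [Group G] (ho : Odd (Nat.card G)) (H : Subgroup G) :
    Odd (Nat.card H) := ho.of_dvd_nat H.card_subgroup_dvd_card

theorem card_ker_lt {G Q : Type*} [Group G] [Finite G] [Group Q] [Nontrivial Q] (φ : G →* Q)
    (h : Function.Surjective φ) : Nat.card φ.ker < Nat.card G := by
  have h1 : φ.ker ≠ ⊤ := by
    intro h2
    obtain ⟨q, hq⟩ := exists_ne (1 : Q)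
    obtain ⟨g, rfl⟩ := h q
    exact hq (MonoidHom.mem_ker.1 (h2 ▸ Subgroup.mem_top g))
  refine lt_of_le_of_ne (Subgroup.card_le_card_group _) fun h2 => h1 ?_
  exact Subgroup.eq_top_of_card_eq _ h2

theorem sum_zmod (p : ℕ) [NeZero p] :
    (∑ i ∈ Finset.range p, {((i : ℕ) : ZMod p)} : Multiset (ZMod p)) = al (ZMod p) := by
  refine seq_eq_st _ _ (fun i hi j hj h => ?_) (fun _ _ => trivial) (by rw [card_al]; simp)
  have := (ZMod.natCast_eq_natCast_iff' i j p).1 h
  rwa [Nat.mod_eq_of_lt hi, Nat.mod_eq_of_lt hj] at this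

theorem harm_step {G : Type*} [Group G] [Finite G] (ho : Odd (Nat.card G)) {p : ℕ} (hp : p.Prime)
    (φ : G →* Multiplicative (ZMod p)) (hφ : Function.Surjective φ) (hK : Harm φ.ker) :
    Harm G := by
  have : Fact p.Prime := ⟨hp⟩
  have hp2 : p ≠ 2 := by
    rintro rfl
    have h := Subgroup.card_dvd_of_surjective φ hφ
    have h2 : Nat.card (Multiplicative (ZMod 2)) = 2 := by simp
    rw [h2] at h
    exact (Nat.not_even_iff_odd.2 ho) (even_iff_two_dvd.2 h)
  have hp3 : 2 < p := lt_of_le_of_ne hp.two_le hp2.symm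
  obtain ⟨t, ht⟩ := hφ (Multiplicative.ofAdd 1)
  obtain ⟨n, rfl⟩ : ∃ n, p = n + 1 := ⟨p - 1, by omega⟩
  let B : ℕ → G := fun i => if i < n + 1 then t ^ (i.choose 2) else 1
  have hc : (((n + 1).choose 2 : ℕ) : ZMod (n + 1)) = 0 :=
    (ZMod.natCast_eq_zero_iff _ _).2 (hp.dvd_choose_self two_ne_zero hp3)
  have hs : ∀ i : ℕ, (((i + 1).choose 2 : ℕ) : ZMod (n + 1)) = (i.choose 2 : ℕ) + (i : ℕ) := by
    intro i
    rw [Nat.choose_succ_succ' i 1, Nat.choose_one_right]
    push_cast; ring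
  have hB : ∀ i ≤ n + 2, (φ (B i)).toAdd = ((i.choose 2 : ℕ) : ZMod (n + 1)) := by
    intro i hi
    by_cases h : i < n + 1
    · have h1 : B i = t ^ (i.choose 2) := if_pos h
      simp [h1, ht]
    · have h1 : B i = 1 := if_neg h
      rw [h1, map_one, toAdd_one]
      obtain rfl | rfl : i = n + 1 ∨ i = n + 1 + 1 := by omega
      · exact hc.symm
      · rw [hs, hc, ZMod.natCast_self, add_zero]
  have hB0 : B 0 = 1 := by simp [B]
  have hB1 : B 1 = 1 := by simp [B]
  have hBn : B (n + 1) = 1 := by simp [B]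
  have hBn' : B (n + 1 + 1) = 1 := by simp [B]
  let g : φ.ker → ℕ → G := fun u i => (B i)⁻¹ * u * B (i + 1)
  have key := chain (op := (· * ·)) (α := fun u => g u 0) (β := fun u => g u (0 + n))
    (γ := fun v => (B n)⁻¹ * v * B (n + 1 + 1))
    (fun u => Pth.seq (· * ·) (g u) 0 n)
    (fun u v => by simp [g, hB0, hB1, hBn, hBn', mul_assoc]) hK
  have hV : ((al φ.ker).bind fun u =>
      {g u 0} + ∑ j ∈ Finset.range n, ({g u (0 + j + 1)} : Multiset G)) = al G := by
    have h : ∀ u, {g u 0} + ∑ j ∈ Finset.range n, ({g u (0 + j + 1)} : Multiset G)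
        = ∑ j ∈ Finset.range (n + 1), ({g u j} : Multiset G) := by
      intro u
      rw [Finset.sum_range_succ', add_comm]; simp
    simp only [h]
    rw [bind_sum]
    refine Eq.trans ?_ (sum_fib (fun a => (φ a).toAdd) _ _ _ (sum_zmod (n + 1)))
    refine Finset.sum_congr rfl fun j hj => ?_
    have hj' := Finset.mem_range.1 hj
    refine (cos_ker φ (B j)⁻¹ (B (j + 1))).trans (st_congr fun a => ?_)
    rw [← Multiplicative.toAdd.injective.eq_iff, toAdd_mul, map_inv, toAdd_inv, hB j (by omega),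
      hB (j + 1) (by omega), hs, neg_add_cancel_left]
  have hM : ((al φ.ker).bind fun u =>
      ∑ j ∈ Finset.range n, ({g u (0 + j) * g u (0 + j + 1)} : Multiset G))
      + (al φ.ker).map (fun v : φ.ker => (B n)⁻¹ * v * B (n + 1 + 1)) = al G := by
    have h2 : (2 : ZMod (n + 1)) ≠ 0 := by
      intro h
      have := Nat.le_of_dvd two_pos ((ZMod.natCast_eq_zero_iff 2 (n + 1)).1 (by exact_mod_cast h))
      omega
    have h1 : (∑ i ∈ Finset.range (n + 1), {2 * ((i : ℕ) : ZMod (n + 1)) + 1} : Multiset _)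
        = al (ZMod (n + 1)) := by
      have hi : Function.Injective fun x : ZMod (n + 1) => 2 * x + 1 := fun a b h =>
        mul_left_cancel₀ h2 (add_right_cancel h)
      rw [← map_al hi, ← sum_zmod (n + 1), sum_single, sum_single, map_map]
      rfl
    have h3 : ∀ j < n + 1, cos φ.ker.subtype (B j)⁻¹ (B (j + 1 + 1))
        = st fun a => (φ a).toAdd = 2 * ((j : ℕ) : ZMod (n + 1)) + 1 := by
      intro j hj
      refine (cos_ker φ _ _).trans (st_congr fun a => ?_)
      rw [← Multiplicative.toAdd.injective.eq_iff, toAdd_mul, map_inv, toAdd_inv, hB j (by omega),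
        hB (j + 1 + 1) (by omega), hs, hs]
      push_cast
      rw [show ∀ a b : ZMod (n + 1), -a + (a + b + (b + 1)) = 2 * b + 1 from fun a b => by ring]
    rw [bind_sum]
    refine Eq.trans ?_ (sum_fib (fun a => (φ a).toAdd) _ _ _ h1)
    rw [Finset.sum_range_succ, ← h3 n (by omega)]
    congr 1
    refine Finset.sum_congr rfl fun j hj => ?_
    have hj' := Finset.mem_range.1 hj
    rw [← h3 j (by omega), ← cos_bij _ _ _ (sq_inj (odd_sub ho φ.ker))]
    simp [g, mul_assoc]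
  exact (key.cast hV hM).rotate (mem_st.2 trivial)

theorem harm_aux (n : ℕ) : ∀ (G : Type u) [Group G] [Finite G] [Group.IsSolvable G],
    Nat.card G ≤ n → Odd (Nat.card G) → Harm G := by
  induction n with
  | zero => intro G _ _ _ h; exact absurd (Nat.card_pos (α := G)) (by omega)
  | succ n ih =>
    intro G _ _ _ h ho
    rcases subsingleton_or_nontrivial G with hG | hG
    · have h1 : ({1} : Multiset G) = al G :=
        eq_st (nodup_singleton _) fun a => by simp [Subsingleton.elim a 1]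
      exact (Pth.edge (· * ·) (1 : G) 1).cast h1 (by simpa using h1)
    · obtain ⟨p, hp, φ, hφ⟩ := exists_zmod G
      have : Fact p.Prime := ⟨hp⟩
      have := card_ker_lt φ hφ
      exact harm_step ho hp φ hφ (ih _ (by omega) (odd_sub ho _))

theorem harm (G : Type u) [Group G] [Finite G] [Group.IsSolvable G] (ho : Odd (Nat.card G)) : Harm G :=
  harm_aux _ G le_rfl ho

end solv

end Pool.Agent.SQ

end MrgPart1

-- ======== part 2: formerly Pool.Agent.MP_f56020_al.Exc
section MrgPart2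

namespace Pool.Agent.SQ

open Multiset

universe u

section
variable {G Q : Type*} [Group G] [Finite G] [Group Q]

/-- The elements outside the kernel. -/
noncomputable def out (φ : G →* Q) : Multiset G := st fun g => φ g ≠ 1

/-- A walk from `1` to `μ` through all the elements outside the kernel whose labels are these
elements and `η`. -/
def Exc (φ : G →* Q) (η μ : G) : Prop := Pth ld 1 μ (out φ + {μ}) (out φ + {η})

theorem out_shift (φ : G →* Q) {h : G} (hh : φ h = 1) : (out φ).map (h * ·) = out φ :=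
  map_st (mul_right_injective h) fun b =>
    ⟨fun hb => ⟨h⁻¹ * b, by simpa [hh] using hb, by simp⟩, by
      rintro ⟨a, ha, rfl⟩
      simpa [hh] using ha⟩

theorem Exc.shift {φ : G →* Q} {η μ h : G} (e : Exc φ η μ) (hh : φ h = 1) :
    Pth ld h (h * μ) (out φ + {h * μ}) (out φ + {η}) := by
  have := Pth.shift h e
  rwa [mul_one, map_add, out_shift φ hh, map_singleton] at this

theorem exc_of {φ : G →* Q} {η h h' μ : G} (hh : φ h = 1) (hμ : h⁻¹ * h' = μ)
    (p : Pth ld h h' (out φ + {h'}) (out φ + {η})) : Exc φ η μ := by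
  have := Pth.shift h⁻¹ p
  rwa [inv_mul_cancel, map_add, out_shift φ (by simp [hh]), map_singleton, hμ] at this

/-- A cyclic arrangement of the non-identity elements with distinct quotients. -/
structure RS [Finite Q] (f : ℕ → Q) (N : ℕ) : Prop where
  per : ∀ i, f (i + N) = f i
  vs : (∑ i ∈ Finset.range N, {f i} : Multiset Q) = st (· ≠ 1)
  ls : (∑ i ∈ Finset.range N, {ld (f i) (f (i + 1))} : Multiset Q) = st (· ≠ 1)

theorem RS.shift [Finite Q] {f : ℕ → Q} {N : ℕ} (h : RS f N) (k : ℕ) :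
    RS (fun i => f (k + i)) N where
  per i := by rw [← add_assoc, h.per]
  vs := (sum_shift (fun i => ({f i} : Multiset Q)) N (fun i => by rw [h.per]) k).trans h.vs
  ls := (sum_shift (fun i => ({ld (f i) (f (i + 1))} : Multiset Q)) N
    (fun i => by rw [add_right_comm, h.per, h.per]) k).trans h.ls

theorem tot_eq [Finite Q] {f : ℕ → Q} {N : ℕ} (h : RS f N) (φ : G →* Q) (τ : ℕ → G)
    (hτ : ∀ i ≤ N, φ (τ i) = f i) :
    totV φ.ker.subtype τ N = out φ ∧ totM φ.ker.subtype τ N = out φ := by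
  constructor
  · refine Eq.trans ?_ (sum_fib φ _ _ _ h.vs)
    refine Finset.sum_congr rfl fun i hi => ?_
    rw [cos_ker, map_one, one_mul, hτ i (Finset.mem_range.1 hi).le]
  · refine Eq.trans ?_ (sum_fib φ _ _ _ h.ls)
    refine Finset.sum_congr rfl fun i hi => ?_
    rw [cos_ker, map_inv, hτ i (Finset.mem_range.1 hi).le, hτ (i + 1) (Finset.mem_range.1 hi)]
    rfl

variable [Group.IsSolvable G]

theorem cyc_of [Finite Q] (ho : Odd (Nat.card G)) {f : ℕ → Q} {n : ℕ} (h : RS f (n + 1))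
    (hn : Odd n) (φ : G →* Q) (hφ : Function.Surjective φ) :
    ∃ x, Pth ld x x (out φ) (out φ) := by
  choose σ hσ using hφ
  have e : f (n + 1) = f 0 := by simpa using h.per 0
  obtain ⟨V, M, p, hV, hM⟩ := skel1 (harm _ (odd_sub ho φ.ker)) (odd_sub ho _) φ.ker.subtype
    (fun i => σ (f i)) hn (by simp only [e])
  obtain ⟨e1, e2⟩ := tot_eq h φ (fun i => σ (f i)) fun i _ => hσ _
  exact ⟨_, (p.trans (seq0 (fun i => σ (f i)) n)).cast (hV.trans e1) (hM.trans e2)⟩

theorem excA_core [Finite Q] (ho : Odd (Nat.card G)) {f : ℕ → Q} {b c : ℕ}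
    (h : RS f (b + c + 3 + 1)) (hn : Even (b + c)) (φ : G →* Q) (τ : ℕ → G)
    (hτ : ∀ i ≤ b + c + 3 + 1, φ (τ i) = f i) (h0 : τ (b + c + 3 + 1) = τ 0) {t : φ.ker}
    (ht : t ≠ 1) {r : G} (e0 : τ 0 = r * lay φ.ker.subtype τ t (b + 1))
    (e3 : τ (b + 3) = r * lay φ.ker.subtype τ t (b + 2)) :
    Pth ld (τ 1 * (τ (b + 3))⁻¹ * τ (b + 2)) (r⁻¹ * τ 1) (out φ + {r⁻¹ * τ 1})
      (out φ + {ld (τ (b + 2)) (lay φ.ker.subtype τ t (b + 2))}) := by
  obtain ⟨VX, MX, VY, MY, pX, pY, hV, hM⟩ := skel2 (harm _ (odd_sub ho φ.ker)) (odd_sub ho _)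
    φ.ker.subtype τ (n := b + c + 3) (hn.add_odd (by decide)) h0 ht
  obtain ⟨e1, e2⟩ := tot_eq h φ τ hτ
  rw [e1] at hV
  rw [e2] at hM
  set g := lay φ.ker.subtype τ t
  rw [sV_cut τ 0 0 (b + c + 2) (j := 1) (by omega) rfl,
    sV_cut τ 1 (b + 1) c (j := b + 3) (by omega) (by omega),
    sV_cut g 0 (b + 1) (c + 1) (j := b + 2) (by omega) (by omega), sV_zero] at hV
  rw [sM_cut τ 0 0 (b + c + 2) (j' := 0) (j := 1) (by omega) rfl rfl,
    sM_cut τ 1 (b + 1) c (j' := b + 2) (j := b + 3) (by omega) (by omega) (by omega),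
    sM_cut g 0 (b + 1) (c + 1) (j' := b + 1) (j := b + 2) (by omega) (by omega) (by omega),
    sM_zero] at hM
  have p := (((((((((Pth.edge ld (τ 1 * (τ (b + 3))⁻¹ * τ (b + 2)) (τ 1)).trans
    (seg τ 1 (b + 1) (j := b + 2) (by omega))).trans (Pth.edge ld _ (g (b + 2)))).trans
    (seg g (b + 2) (c + 1) (j := b + c + 3) (by omega))).trans pY).trans
    (Pth.edge ld _ (τ (b + 3)))).trans (seg τ (b + 3) c (j := b + c + 3) (by omega))).trans
    pX).trans (seg g 0 (b + 1) (j := b + 1) (by omega))).trans (Pth.edge ld _ (r⁻¹ * τ 1))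
  have l1 : ld (τ 1 * (τ (b + 3))⁻¹ * τ (b + 2)) (τ 1) = ld (τ (b + 2)) (τ (b + 3)) := by
    simp [ld, mul_assoc]
  have l2 : ld (τ 0) (τ (b + 3)) = ld (g (b + 1)) (g (b + 2)) := by
    rw [e0, e3]; simp [ld, mul_assoc]
  have l3 : ld (g (b + 1)) (r⁻¹ * τ 1) = ld (τ 0) (τ 1) := by
    rw [e0]; simp [ld, mul_assoc]
  rw [l1, l2, l3] at p
  refine p.cast ?_ ?_
  · rw [← hV]; abel
  · rw [← hM]; abel

end

section
variable {G Q : Type*} [Group G] [Finite G] [CommGroup Q] [Finite Q]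

/-- The system of excursions over a quotient. -/
def Sys (φ : G →* Q) : Prop :=
  (∃ x, Pth ld x x (out φ) (out φ)) ∧ ∃ r₀ c₀ w₀ : Q, Subgroup.closure {r₀, c₀} = ⊤ ∧
    ∀ r c w η, φ r = r₀ → φ c = c₀ → φ w = w₀ → φ η = 1 → η ≠ 1 →
      Exc φ η (w⁻¹ * (r * c * r⁻¹ * c⁻¹) * w * η)

variable [Group.IsSolvable G]

theorem sysA (ho : Odd (Nat.card G)) {f : ℕ → Q} {b c : ℕ} (h : RS f (b + c + 3 + 1))
    (hn : Even (b + c)) (f0 : f 0 = f 1 * f (b + 1)) (f3 : f (b + 3) = f 1 * f (b + 2))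
    (hg : ∀ S : Subgroup Q, f 1 ∈ S → f (b + 2) ∈ S → S = ⊤) (φ : G →* Q)
    (hφ : Function.Surjective φ) : Sys φ := by
  refine ⟨cyc_of ho h (hn.add_odd (by decide)) φ hφ, f 1, f (b + 2) * (f 1)⁻¹, f (b + 2), ?_, ?_⟩
  · have h1 : f 1 ∈ Subgroup.closure {f 1, f (b + 2) * (f 1)⁻¹} :=
      Subgroup.subset_closure (by simp)
    have h2 : f (b + 2) * (f 1)⁻¹ ∈ Subgroup.closure {f 1, f (b + 2) * (f 1)⁻¹} :=
      Subgroup.subset_closure (by simp)
    exact hg _ h1 (by simpa using mul_mem h2 h1)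
  intro r c' w η hr hc hw hη hη'
  choose σ hσ using hφ
  let t' : φ.ker := ⟨w * η * w⁻¹, by simp [MonoidHom.mem_ker, hη]⟩
  have ht' : t' ≠ 1 := fun e => hη' (by simpa [t'] using congrArg Subtype.val e)
  have ht : sg (b + 2) t' ≠ 1 := fun e => ht' (sg_inj (b + 2) (e.trans (sg_one _).symm))
  let y : G := if b = 0 then c'⁻¹ * w * η else σ (f (b + 1))
  let τ : ℕ → G := fun i =>
    if i = 0 ∨ i = b + c + 3 + 1 then r * ((w * η * w⁻¹)⁻¹ * y)
    else if i = 1 then c'⁻¹ * w * η else if i = b + 2 then w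
    else if i = b + 3 then r * (w * η) else σ (f i)
  have t0 : τ 0 = r * ((w * η * w⁻¹)⁻¹ * y) := if_pos (Or.inl rfl)
  have tn : τ (b + c + 3 + 1) = r * ((w * η * w⁻¹)⁻¹ * y) := if_pos (Or.inr rfl)
  have t1 : τ 1 = c'⁻¹ * w * η := by
    simp only [τ]; rw [if_neg (by omega), if_pos trivial]
  have t2 : τ (b + 2) = w := by
    simp only [τ]; rw [if_neg (by omega), if_neg (by omega), if_pos trivial]
  have t3 : τ (b + 3) = r * (w * η) := by
    simp only [τ]; rw [if_neg (by omega), if_neg (by omega), if_neg (by omega), if_pos trivial]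
  have ty : τ (b + 1) = y := by
    by_cases hb : b = 0
    · rw [show y = c'⁻¹ * w * η from if_pos hb, ← t1, hb]
    · rw [show y = σ (f (b + 1)) from if_neg hb]
      simp only [τ]
      rw [if_neg (by omega), if_neg (by omega), if_neg (by omega), if_neg (by omega)]
  have p1 : φ (c'⁻¹ * w * η) = f 1 := by simp [hc, hw, hη]
  have py : φ y = f (b + 1) := by
    by_cases hb : b = 0
    · rw [show y = c'⁻¹ * w * η from if_pos hb, p1, hb]
    · rw [show y = σ (f (b + 1)) from if_neg hb, hσ]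
  have p0 : φ (r * ((w * η * w⁻¹)⁻¹ * y)) = f 0 := by simp [hr, hη, py, f0]
  have hτ : ∀ i ≤ b + c + 3 + 1, φ (τ i) = f i := by
    intro i _
    simp only [τ]
    split_ifs with a1 a2 a3 a4
    · rcases a1 with rfl | rfl
      · exact p0
      · rw [p0, ← h.per 0, zero_add]
    · rw [a2, p1]
    · rw [a3, hw]
    · rw [a4, f3]; simp [hr, hw, hη]
    · exact hσ _
  have g2 : lay φ.ker.subtype τ (sg (b + 2) t') (b + 2) = w * η := by
    rw [lay, sg_sg, t2]; simp [t']
  have g1 : lay φ.ker.subtype τ (sg (b + 2) t') (b + 1) = (w * η * w⁻¹)⁻¹ * y := by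
    have e : sg (b + 1) (sg (b + 2) t') = t'⁻¹ := by
      rw [eq_inv_iff_mul_eq_one, ← sg_sg (b + 2) t', sg_sg, sg_succ (b + 1), sg_succ (b + 1),
        sg_succ b]
      unfold sg; split_ifs <;> simp
    rw [lay, e, ty]; simp [t']
  have p := excA_core ho h hn φ τ hτ (tn.trans t0.symm) ht (r := r) (by rw [g1, t0])
    (by rw [g2, t3])
  rw [g2, t1, t2, t3, show ld w (w * η) = η by simp [ld]] at p
  refine exc_of ?_ ?_ p
  · simp [hc, hw, hη, hr]
  · group

/-- The arrangement used for the group of order seven. -/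
def f7 (i : ℕ) : ZMod 7 := [1, 3, 2, 6, 4, 5].getD i 1

theorem sys7 (ho : Odd (Nat.card G)) {φ : G →* Multiplicative (ZMod 7)}
    (h : RS (fun i => Multiplicative.ofAdd (f7 (i % 6))) (5 + 1))
    (hφ : Function.Surjective φ) : Sys φ := by
  refine ⟨cyc_of ho h (by decide) φ hφ, .ofAdd 5, .ofAdd 4, .ofAdd 2, ?_, ?_⟩
  · have h5 : Multiplicative.ofAdd (5 : ZMod 7) ≠ 1 := by decide
    have : Fact (Nat.card (Multiplicative (ZMod 7))).Prime := ⟨by norm_num⟩
    refine (Subgroup.eq_bot_or_eq_top_of_prime_card _).resolve_left fun e => ?_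
    have h1 : Multiplicative.ofAdd (5 : ZMod 7) ∈ (⊥ : Subgroup _) :=
      e ▸ Subgroup.subset_closure (by simp)
    exact h5 (Subgroup.mem_bot.1 h1)
  intro a b w η ha hb hw hη hη'
  let t : φ.ker := ⟨w * η * w⁻¹, by simp [MonoidHom.mem_ker, hη]⟩
  have ht : t ≠ 1 := fun e => hη' (by simpa [t] using congrArg Subtype.val e)
  have ht1 : φ t = 1 := t.2
  let τ : ℕ → G := fun i => [(t : G)⁻¹ * a⁻¹ * b * w, t * b * b * w, w, b * w,
    (t : G)⁻¹ * b⁻¹ * a⁻¹ * b * w,
    t * (b⁻¹ * a⁻¹ * b * w) * (b * b * w)⁻¹ * ((t : G)⁻¹ * b⁻¹ * a⁻¹ * b * w)].getD i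
      ((t : G)⁻¹ * a⁻¹ * b * w)
  have hτ : ∀ i ≤ 5 + 1, φ (τ i) = Multiplicative.ofAdd (f7 (i % 6)) := by
    intro i hi
    interval_cases i <;> simp [τ, ht1, ha, hb, hw] <;> decide
  obtain ⟨VX, MX, VY, MY, pX, pY, hV, hM⟩ := skel2 (harm _ (odd_sub ho φ.ker)) (odd_sub ho _)
    φ.ker.subtype τ (n := 5) (by decide) rfl ht
  obtain ⟨e1, e2⟩ := tot_eq h φ τ hτ
  rw [e1] at hV
  rw [e2] at hM
  set g := lay φ.ker.subtype τ t with hg
  simp only [sV, sM, Finset.sum_range_succ, Finset.sum_range_zero, zero_add,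
    Nat.reduceAdd] at hV hM
  have g0 : g 0 = a⁻¹ * b * w := by simp [hg, lay, sg, τ, mul_assoc]
  have g1 : g 1 = b * b * w := by simp [hg, lay, sg, τ, mul_assoc]
  have g2 : g 2 = t * w := by simp [hg, lay, sg, τ]
  have g4 : g 4 = b⁻¹ * a⁻¹ * b * w := by
    simp [hg, lay, sg, τ, mul_assoc, show Even 4 by decide]
  have g5 : g 5 = g 4 * (g 1)⁻¹ * τ 4 := by
    rw [g4, g1]; simp [hg, lay, sg, τ, mul_assoc, show ¬ Even 5 by decide]
  have t2 : τ 2 = w := rfl
  have t3 : τ 3 = b * w := rfl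
  have p := ((((((((((((Pth.edge ld (b⁻¹ * a⁻¹ * w) (g 5)).trans pY).trans
    (Pth.edge ld _ (τ 1))).trans (Pth.edge ld _ (τ 2))).trans (Pth.edge ld _ (g 2))).trans
    (Pth.edge ld _ (g 3))).trans (Pth.edge ld _ (g 4))).trans (Pth.edge ld _ (τ 3))).trans
    (Pth.edge ld _ (g 1))).trans (Pth.edge ld _ (τ 4))).trans (Pth.edge ld _ (τ 5))).trans
    pX).trans (Pth.edge ld _ (a⁻¹ * b⁻¹ * w * η))
  have l1 : ld (b⁻¹ * a⁻¹ * w) (g 5) = ld (τ 3) (τ 4) := by
    rw [g5, g4, g1, t3, ld, ld]; group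
  have l2 : ld (τ 2) (g 2) = η := by
    rw [g2, t2, ld]; simp [t, mul_assoc]
  have l3 : ld (g 4) (τ 3) = ld (g 0) (g 1) := by
    rw [g4, g0, g1, t3, ld, ld]; group
  have l4 : ld (τ 3) (g 1) = ld (τ 2) (τ 3) := by
    rw [g1, t2, t3, ld, ld]; group
  have l5 : ld (g 1) (τ 4) = ld (g 4) (g 5) := by
    rw [g5, ld, ld]; group
  have l6 : ld (g 0) (a⁻¹ * b⁻¹ * w * η) = ld (g 1) (g 2) := by
    rw [g0, g1, g2, ld, ld]; simp only [t]; group
  rw [l1, l2, l3, l4, l5, l6] at p
  refine exc_of (h := b⁻¹ * a⁻¹ * w) (h' := a⁻¹ * b⁻¹ * w * η) ?_ (by group) (p.cast ?_ ?_)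
  · simp only [map_mul, map_inv, ha, hb, hw]; decide
  · rw [← hV]; abel
  · rw [← hM]; abel

end

end Pool.Agent.SQ

end MrgPart2

-- ======== part 3: formerly Pool.Agent.MP_f56020_al.Pat
section MrgPart3

namespace Pool.Agent.SQ

open Multiset Multiplicative

theorem rs_of {A : Type*} [AddCommGroup A] [Finite A] (F : ℕ → A) (N : ℕ)
    (hc : Nat.card A = N + 1) (h0 : F N = F 0) (h1 : ∀ i < N, F i ≠ 0)
    (h2 : ∀ i < N, ∀ j < N, F i = F j → i = j) (h3 : ∀ i < N, F (i + 1) - F i ≠ 0)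
    (h4 : ∀ i < N, ∀ j < N, F (i + 1) - F i = F (j + 1) - F j → i = j) :
    RS (fun i => ofAdd (F (i % N))) N := by
  have hcard : card (st fun x : Multiplicative A => x ≠ 1) ≤ N := by
    have h := card_ne (1 : Multiplicative A)
    rw [Nat.card_congr toAdd, hc] at h
    omega
  have e1 : ∀ i < N, F (i % N) = F i := fun i hi => by rw [Nat.mod_eq_of_lt hi]
  have e2 : ∀ i < N, F ((i + 1) % N) = F (i + 1) := fun i hi => by
    rcases Nat.lt_or_eq_of_le (Nat.succ_le_of_lt hi) with h | h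
    · exact e1 _ h
    · rw [show i + 1 = N from h, Nat.mod_self, h0]
  have e3 : ∀ i < N, ld (ofAdd (F (i % N))) (ofAdd (F ((i + 1) % N)))
      = ofAdd (F (i + 1) - F i) := fun i hi => by
    rw [e1 i hi, e2 i hi, ld, ← ofAdd_neg, ← ofAdd_add, neg_add_eq_sub]
  refine ⟨fun i => by rw [Nat.add_mod_right], seq_eq_st _ _ ?_ ?_ hcard,
    seq_eq_st _ _ ?_ ?_ hcard⟩
  · intro i hi j hj h
    rw [e1 i hi, e1 j hj] at h
    exact h2 i hi j hj (ofAdd.injective h)
  · intro i hi h
    rw [e1 i hi] at h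
    exact h1 i hi (ofAdd.injective h)
  · intro i hi j hj h
    rw [e3 i hi, e3 j hj] at h
    exact h4 i hi j hj (ofAdd.injective h)
  · intro i hi h
    rw [e3 i hi] at h
    exact h3 i hi (ofAdd.injective h)

/-- The zigzag permutation of `1, …, m`. -/
def zz (m d i : ℕ) : ℕ := if (i + d) % 2 = 0 then 1 + i / 2 else m - i / 2

/-- The cyclic arrangement of `1, …, 2 m`. -/
def zg (m d i : ℕ) : ℕ :=
  if i < m then zz m d i else if i < 2 * m then zz m d (2 * m - 1 - i) + m else zz m d 0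

/-- Its differences modulo `2 m + 1`. -/
def zl (m d i : ℕ) : ℕ :=
  if i + 1 < m then (if (i + d) % 2 = 0 then m - 1 - i else m + 2 + i)
  else if i + 1 = m then m
  else if i + 1 < 2 * m then (if (i + d) % 2 = 0 then 3 * m - i else i + 1 - m)
  else m + 1

theorem zg_bd {m d i : ℕ} (hm : 0 < m) : 0 < zg m d i ∧ zg m d i < 2 * m + 1 := by
  unfold zg zz; split_ifs <;> omega

theorem zg_inj {m d i j : ℕ} (hi : i < 2 * m) (hj : j < 2 * m) (h : zg m d i = zg m d j) :
    i = j := by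
  unfold zg zz at h; split_ifs at h <;> omega

theorem zl_bd {m d i : ℕ} (hi : i < 2 * m) : 0 < zl m d i ∧ zl m d i < 2 * m + 1 := by
  unfold zl; split_ifs <;> omega

theorem zl_inj {m d i j : ℕ} (hi : i < 2 * m) (hj : j < 2 * m) (h : zl m d i = zl m d j) :
    i = j := by
  unfold zl at h; split_ifs at h <;> omega

theorem zl_eq {m d i : ℕ} (hd : d < 2) (hi : i < 2 * m) :
    zg m d i + zl m d i = zg m d (i + 1) ∨ zg m d i + zl m d i = zg m d (i + 1) + (2 * m + 1) := by
  unfold zl zg zz; split_ifs <;> omega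

/-- The value of `zg` at a given place. -/
def ZV (m d i a : ℕ) : Prop :=
  (i < m ∧ ((i + d) % 2 = 0 ∧ a = 1 + i / 2 ∨ (i + d) % 2 = 1 ∧ a = m - i / 2)) ∨
    (m ≤ i ∧ i < 2 * m ∧ ((i + d) % 2 = 1 ∧ a = 1 + (2 * m - 1 - i) / 2 + m ∨
      (i + d) % 2 = 0 ∧ a = m - (2 * m - 1 - i) / 2 + m))

theorem zg_val {m d i a : ℕ} (hi : ZV m d i a) : zg m d i = a := by
  unfold ZV at hi; unfold zg zz; split_ifs <;> omega

theorem zg_rel {m d i j l n : ℕ} (a b c : ℕ) (hi : ZV m d i a) (hj : ZV m d j b) (hl : ZV m d l c)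
    (h : a + b = c ∨ a + b = c + n) :
    zg m d i + zg m d j = zg m d l ∨ zg m d i + zg m d j = zg m d l + n := by
  rwa [zg_val hi, zg_val hj, zg_val hl]

theorem cast_inj {n a b : ℕ} (ha : a < n) (hb : b < n) (h : (a : ZMod n) = b) : a = b := by
  have := (ZMod.natCast_eq_natCast_iff' a b n).1 h
  rwa [Nat.mod_eq_of_lt ha, Nat.mod_eq_of_lt hb] at this

theorem cast_add_eq {n a b c : ℕ} (h : b + c = a ∨ b + c = a + n) :
    (a : ZMod n) = (b : ZMod n) + c := by
  rw [← Nat.cast_add]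
  rcases h with h | h <;> rw [h]
  rw [Nat.cast_add, ZMod.natCast_self, add_zero]

theorem rs_zig {m d n : ℕ} [NeZero n] (hn : n = 2 * m + 1) (hm : 0 < m) (hd : d < 2) :
    RS (fun i => ofAdd ((zg m d (i % (2 * m)) : ℕ) : ZMod n)) (2 * m) := by
  subst hn
  have e : ∀ i < 2 * m, ((zg m d (i + 1) : ℕ) : ZMod (2 * m + 1)) - (zg m d i : ℕ)
      = (zl m d i : ℕ) := fun i hi => by
    rw [cast_add_eq (zl_eq hd hi), add_sub_cancel_left]
  refine rs_of (fun i => ((zg m d i : ℕ) : ZMod (2 * m + 1))) (2 * m) (by simp) ?_ ?_ ?_ ?_ ?_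
  · simp [zg, hm, show ¬ 2 * m < m by omega]
  · intro i _ h
    have := cast_inj (zg_bd hm).2 (Nat.succ_pos _) (h.trans Nat.cast_zero.symm)
    exact (zg_bd hm).1.ne' this
  · intro i hi j hj h
    exact zg_inj hi hj (cast_inj (zg_bd hm).2 (zg_bd hm).2 h)
  · intro i hi h
    rw [e i hi] at h
    exact (zl_bd hi).1.ne' (cast_inj (zl_bd hi).2 (Nat.succ_pos _) (h.trans Nat.cast_zero.symm))
  · intro i hi j hj h
    rw [e i hi, e j hj] at h
    exact zl_inj hi hj (cast_inj (zl_bd hi).2 (zl_bd hj).2 h)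

theorem mod_of {a p N : ℕ} (hp : p < N) (h : a = p ∨ a = p + N) : a % N = p := by
  rcases h with rfl | rfl
  · exact Nat.mod_eq_of_lt hp
  · rw [Nat.add_mod_right, Nat.mod_eq_of_lt hp]

variable {G : Type*} [Group G] [Finite G] [Group.IsSolvable G]

theorem sys_zig (ho : Odd (Nat.card G)) {p : ℕ} (hp : p.Prime) {m d k b c p1 p2 p3 : ℕ}
    (hn : p = 2 * m + 1) (hd : d < 2) (hN : 2 * m = b + c + 3 + 1) (hk : k + 1 < 2 * m)
    (h1 : p1 < 2 * m) (h2 : p2 < 2 * m) (h3 : p3 < 2 * m)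
    (e1 : k + (b + 1) = p1 ∨ k + (b + 1) = p1 + 2 * m)
    (e2 : k + (b + 2) = p2 ∨ k + (b + 2) = p2 + 2 * m)
    (e3 : k + (b + 3) = p3 ∨ k + (b + 3) = p3 + 2 * m)
    (f0 : zg m d (k + 1) + zg m d p1 = zg m d k ∨ zg m d (k + 1) + zg m d p1 = zg m d k + p)
    (f3 : zg m d (k + 1) + zg m d p2 = zg m d p3 ∨ zg m d (k + 1) + zg m d p2 = zg m d p3 + p)
    (φ : G →* Multiplicative (ZMod p)) (hφ : Function.Surjective φ) : Sys φ := by
  have : Fact p.Prime := ⟨hp⟩
  have hm : 0 < m := by omega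
  have h : RS (fun i => ofAdd ((zg m d ((k + i) % (2 * m)) : ℕ) : ZMod p)) (b + c + 3 + 1) :=
    hN ▸ (rs_zig hn hm hd).shift k
  refine sysA ho h ⟨m - 2, by omega⟩ ?_ ?_ ?_ φ hφ
  · rw [mod_of h1 e1, Nat.mod_eq_of_lt hk, add_zero, Nat.mod_eq_of_lt (by omega), cast_add_eq f0,
      ofAdd_add]
  · rw [mod_of h2 e2, mod_of h3 e3, Nat.mod_eq_of_lt hk, cast_add_eq f3, ofAdd_add]
  · intro S hS _
    have : Fact (Nat.card (Multiplicative (ZMod p))).Prime :=
      ⟨by rwa [Nat.card_congr toAdd, Nat.card_zmod]⟩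
    refine S.eq_bot_or_eq_top_of_prime_card.resolve_left fun e => ?_
    rw [e, Subgroup.mem_bot] at hS
    have h0 := ofAdd.injective hS
    exact (zg_bd hm).1.ne'
      (cast_inj (hn ▸ (zg_bd hm).2) hp.pos (h0.trans Nat.cast_zero.symm))

theorem sys_prime (ho : Odd (Nat.card G)) {p : ℕ} [NeZero p] (hp : p.Prime) (h5 : 5 ≤ p)
    (φ : G →* Multiplicative (ZMod p)) (hφ : Function.Surjective φ) : Sys φ := by
  have h2 : p % 2 = 1 := Nat.odd_iff.1 (hp.odd_of_ne_two (by omega))
  by_cases e5 : p = 5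
  · exact sys_zig ho hp (m := 2) (d := 1) (k := 0) (b := 0) (c := 0) (p1 := 1) (p2 := 2) (p3 := 3)
      e5 (by omega) (by omega) (by omega) (by omega) (by omega) (by omega) (by omega) (by omega)
      (by omega) (Or.inl (by decide)) (Or.inl (by decide)) φ hφ
  by_cases e7 : p = 7
  · subst e7
    exact sys7 ho (rs_of f7 6 (by simp) (by decide) (by decide) (by decide) (by decide)
      (by decide)) hφ
  have h5' : p % 5 ≠ 0 := fun h =>
    e5 ((Nat.prime_dvd_prime_iff_eq (by norm_num) hp).1 (Nat.dvd_of_mod_eq_zero h)).symm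
  have h9 : p ≠ 9 := fun h => absurd (h ▸ hp) (by norm_num)
  obtain ⟨k, hk⟩ : ∃ k, p = 10 * k + 11 ∨ p = 10 * k + 13 ∨ p = 10 * k + 17 ∨ p = 10 * k + 19 :=
    ⟨p / 10 - 1, by omega⟩
  rcases hk with e | e | e | e
  · exact sys_zig ho hp (m := 5 * k + 5) (d := 1) (k := 2 * k) (b := 2 * k + 1) (c := 8 * k + 5)
      (p1 := 4 * k + 2) (p2 := 4 * k + 3) (p3 := 4 * k + 4) (by omega) (by omega) (by omega)
      (by omega) (by omega) (by omega) (by omega) (by omega) (by omega) (by omega)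
      (zg_rel (1 * k + 1) (3 * k + 4) (4 * k + 5) (by unfold ZV; omega)
        (by unfold ZV; omega) (by unfold ZV; omega) (by omega))
      (zg_rel (1 * k + 1) (2 * k + 2) (3 * k + 3) (by unfold ZV; omega)
        (by unfold ZV; omega) (by unfold ZV; omega) (by omega)) φ hφ
  · exact sys_zig ho hp (m := 5 * k + 6) (d := 0) (k := 6 * k + 6) (b := 6 * k + 5)
      (c := 4 * k + 3) (p1 := 2 * k) (p2 := 2 * k + 1) (p3 := 2 * k + 2) (by omega) (by omega)
      (by omega) (by omega) (by omega) (by omega) (by omega) (by omega) (by omega) (by omega)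
      (zg_rel (7 * k + 9) (1 * k + 1) (8 * k + 10) (by unfold ZV; omega)
        (by unfold ZV; omega) (by unfold ZV; omega) (by omega))
      (zg_rel (7 * k + 9) (4 * k + 6) (1 * k + 2) (by unfold ZV; omega)
        (by unfold ZV; omega) (by unfold ZV; omega) (by omega)) φ hφ
  · exact sys_zig ho hp (m := 5 * k + 8) (d := 1) (k := 8 * k + 12) (b := 8 * k + 11)
      (c := 2 * k + 1) (p1 := 6 * k + 8) (p2 := 6 * k + 9) (p3 := 6 * k + 10) (by omega) (by omega)
      (by omega) (by omega) (by omega) (by omega) (by omega) (by omega) (by omega) (by omega)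
      (zg_rel (9 * k + 15) (7 * k + 12) (6 * k + 10) (by unfold ZV; omega)
        (by unfold ZV; omega) (by unfold ZV; omega) (by omega))
      (zg_rel (9 * k + 15) (8 * k + 13) (7 * k + 11) (by unfold ZV; omega)
        (by unfold ZV; omega) (by unfold ZV; omega) (by omega)) φ hφ
  · exact sys_zig ho hp (m := 5 * k + 9) (d := 0) (k := 2 * k + 1) (b := 2 * k + 3)
      (c := 8 * k + 11) (p1 := 4 * k + 5) (p2 := 4 * k + 6) (p3 := 4 * k + 7) (by omega) (by omega)
      (by omega) (by omega) (by omega) (by omega) (by omega) (by omega) (by omega) (by omega)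
      (zg_rel (1 * k + 2) (3 * k + 7) (4 * k + 9) (by unfold ZV; omega)
        (by unfold ZV; omega) (by unfold ZV; omega) (by omega))
      (zg_rel (1 * k + 2) (2 * k + 4) (3 * k + 6) (by unfold ZV; omega)
        (by unfold ZV; omega) (by unfold ZV; omega) (by omega)) φ hφ

/-- The arrangement used for the cyclic group of order nine. -/
def f9 (i : ℕ) : ZMod 9 := [5, 1, 4, 2, 3, 7, 6, 8].getD i 5

/-- The arrangement used for the elementary abelian group of order nine. -/
def f33 (i : ℕ) : ZMod 3 × ZMod 3 :=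
  [(2, 2), (1, 0), (1, 2), (0, 1), (1, 1), (2, 0), (2, 1), (0, 2)].getD i (2, 2)

theorem sys9 (ho : Odd (Nat.card G)) (φ : G →* Multiplicative (ZMod 9))
    (hφ : Function.Surjective φ) : Sys φ := by
  refine sysA ho (b := 1) (c := 3) (rs_of f9 8 (by simp) (by decide) (by decide) (by decide)
    (by decide) (by decide)) (by decide) (by decide) (by decide) ?_ φ hφ
  intro S hS _
  have h : ∀ x : Multiplicative (ZMod 9), ∃ i : Fin 9, x = ofAdd (f9 (1 % 8)) ^ (i : ℕ) := by decide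
  refine eq_top_iff.2 fun x _ => ?_
  obtain ⟨i, rfl⟩ := h x
  exact pow_mem hS _

theorem sys33 (ho : Odd (Nat.card G)) (φ : G →* Multiplicative (ZMod 3 × ZMod 3))
    (hφ : Function.Surjective φ) : Sys φ := by
  refine sysA ho (b := 1) (c := 3) (rs_of f33 8 (by simp) (by decide) (by decide) (by decide)
    (by decide) (by decide)) (by decide) (by decide) (by decide) ?_ φ hφ
  intro S hS hS'
  have h : ∀ x : Multiplicative (ZMod 3 × ZMod 3), ∃ i j : Fin 3,
      x = ofAdd (f33 (1 % 8)) ^ (i : ℕ) * ofAdd (f33 ((1 + 2) % 8)) ^ (j : ℕ) := by decide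
  refine eq_top_iff.2 fun x _ => ?_
  obtain ⟨i, j, rfl⟩ := h x
  exact mul_mem (pow_mem hS _) (pow_mem hS' _)

/-- The arrangement used for the group of order three. -/
def f3 (i : ℕ) : ZMod 3 := [1, 2].getD i 1

theorem cyc3 (ho : Odd (Nat.card G)) (φ : G →* Multiplicative (ZMod 3))
    (hφ : Function.Surjective φ) : ∃ x, Pth ld x x (out φ) (out φ) :=
  cyc_of ho (n := 1) (rs_of f3 2 (by simp) (by decide) (by decide) (by decide)
    (by decide) (by decide)) (by decide) φ hφ

end Pool.Agent.SQ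

end MrgPart3

-- ======== part 4: formerly Pool.Agent.MP_f56020_al.Three
section MrgPart4

namespace Pool.Agent.SQ

open Multiset Multiplicative

variable {G : Type*} [Group G] [Finite G] {q : ℕ} [Fact q.Prime]

/-- A translate of a fibre of `ψ`. -/
noncomputable def fb {H : Subgroup G} (ψ : H →* Multiplicative (ZMod q)) (a b : G) (x : ZMod q) :
    Multiset G := (st fun h : H => (ψ h).toAdd = x).map fun h : H => a * h * b

theorem cos_fb {H : Subgroup G} (ψ : H →* Multiplicative (ZMod q)) (a b : G) (ρ ρ' : H)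
    {a' b' : G} {x : ZMod q} (ha : a' = a * ρ) (hb : b' = ρ' * b)
    (hx : x = (ψ ρ).toAdd + (ψ ρ').toAdd) :
    cos (H.subtype.comp ψ.ker.subtype) a' b' = fb ψ a b x := by
  subst ha hb hx
  have e : (st fun h : H => (ψ h).toAdd = (ψ ρ).toAdd + (ψ ρ').toAdd)
      = cos ψ.ker.subtype ρ ρ' := by
    rw [cos_ker]
    exact st_congr fun h => by rw [← toAdd_mul, toAdd.injective.eq_iff]
  rw [fb, e, cos, cos, map_map]
  simp [mul_assoc]

theorem fb_level {Q : Type*} [Group Q] (π : G →* Q) (ψ : π.ker →* Multiplicative (ZMod q))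
    (a b : G) {g c : ZMod q} (hg0 : g ≠ 0)
    (hg : ∀ i < q - 1, ∀ j < q - 1, g ^ i = g ^ j → i = j) (hc : c ≠ 0) :
    ∑ k ∈ Finset.range (q - 1), fb ψ a b (c * g ^ k) + fb ψ a b 0
      = st fun x => π x = π a * π b := by
  have h1 : (∑ k ∈ Finset.range (q - 1), {c * g ^ k} : Multiset (ZMod q)) = st (· ≠ 0) := by
    refine seq_eq_st _ _ (fun i hi j hj h => hg i hi j hj (mul_left_cancel₀ hc h))
      (fun i _ => mul_ne_zero hc (pow_ne_zero _ hg0)) ?_
    have := card_ne (0 : ZMod q)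
    rw [Nat.card_zmod] at this
    omega
  have h2 := sum_fib (fun h : π.ker => (ψ h).toAdd) _ _ _ h1
  have h3 : (st fun h : π.ker => (ψ h).toAdd ≠ 0) + (st fun h : π.ker => (ψ h).toAdd = 0)
      = al π.ker := st_add (fun _ h => h) fun _ => by simp only [true_iff]; exact em' _
  rw [← cos_ker, cos, ← h3, ← h2, map_add]
  congr 1
  exact (map_sum (mapAddMonoidHom fun h : π.ker => a * h * b) _ _).symm

theorem out_three (π : G →* Multiplicative (ZMod 3)) {x y : Multiplicative (ZMod 3)}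
    (h : ∀ u, u ≠ 1 ↔ u = x ∨ u = y) (hxy : x ≠ y) :
    (st fun g => π g = x) + (st fun g => π g = y) = out π :=
  st_add (fun _ h1 h2 => hxy (h1.symm.trans h2)) fun _ => h _

variable [Group.IsSolvable G]

theorem excB (ho : Odd (Nat.card G)) (π : G →* Multiplicative (ZMod 3)) {z : G}
    (hz : π z = ofAdd 1) (ψ : π.ker →* Multiplicative (ZMod q)) (hψ : Function.Surjective ψ)
    {g : ZMod q} (hg1 : g ^ (q - 1) = 1) (hg : ∀ i < q - 1, ∀ j < q - 1, g ^ i = g ^ j → i = j)
    (p p' : π.ker) (h1 : (ψ p).toAdd ≠ 0) (h2 : (ψ p').toAdd ≠ 0)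
    (h3 : (ψ p').toAdd ≠ (ψ p).toAdd) (h4 : g * (ψ p).toAdd ≠ (ψ p').toAdd) :
    Exc π (z⁻¹ * p' * z) ((z * z)⁻¹ * ((p : G)⁻¹ * p') * z⁻¹ * p * (z * z * z)) := by
  have hq := (Fact.out : q.Prime).two_le
  have hg0 : g ≠ 0 := by
    rintro rfl
    rw [zero_pow (by omega)] at hg1
    exact zero_ne_one hg1
  have hoK : Odd (Nat.card ψ.ker) := odd_sub (odd_sub ho _) _
  set P := (ψ p).toAdd
  set P' := (ψ p').toAdd
  choose σ hσ using hψ
  obtain ⟨n, hn⟩ : ∃ n, 2 * (q - 1) = n + 1 + 1 := ⟨2 * (q - 1) - 2, by omega⟩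
  let v : ℕ → ZMod q := fun i => (if Even i then P else P') * g ^ (i / 2)
  let ρ : ℕ → π.ker := fun i =>
    if i = 0 ∨ i = n + 1 + 1 then p else if i = 1 then p' else σ (ofAdd (v i))
  have hρ : ∀ i, (ψ (ρ i)).toAdd = v i := by
    intro i
    simp only [ρ]
    split_ifs with a1 a2
    · rcases a1 with rfl | rfl
      · simp [v, P]
      · simp [v, ← hn, hg1, P]
    · subst a2; simp [v, P']
    · rw [hσ]; rfl
  have ve : ∀ k, v (2 * k) = P * g ^ k := fun k => by simp [v]
  have vo : ∀ k, v (2 * k + 1) = P' * g ^ k := fun k => by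
    simp [v, show (2 * k + 1) / 2 = k by omega]
  let τ : ℕ → G := fun i => ρ i * if Even i then z * z else z
  have te : ∀ k, τ (2 * k) = ρ (2 * k) * (z * z) := fun k => by simp [τ]
  have tod : ∀ k, τ (2 * k + 1) = ρ (2 * k + 1) * z := fun k => by simp [τ]
  have t0 : τ 0 = p * (z * z) := by simp [τ, ρ]
  have t1 : τ 1 = p' * z := by simp [τ, ρ]
  have tn : τ (n + 1 + 1) = τ 0 := by
    rw [t0, ← hn, te, hn]; simp [ρ]
  let τ' : ℕ → G := fun i => if Even i then z else z * z
  obtain ⟨V, M, pl, hV, hM⟩ := skel1 (harm _ hoK) hoK (π.ker.subtype.comp ψ.ker.subtype) τ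
    (n := n + 1) ⟨q - 2, by omega⟩ tn
  obtain ⟨V', M', ps, hV', hM'⟩ := skel1 (harm _ hoK) hoK (π.ker.subtype.comp ψ.ker.subtype) τ'
    (n := 1) (by decide) (by simp [τ'])
  have s0 : τ' 0 = z := by simp [τ']
  have s1 : τ' 1 = z * z := by simp [τ']
  have s2 : τ' 2 = z := by simp [τ']
  have eV : totV (π.ker.subtype.comp ψ.ker.subtype) τ (n + 1 + 1)
      + totV (π.ker.subtype.comp ψ.ker.subtype) τ' (1 + 1) = out π := by
    rw [← out_three π (x := π 1 * π (z * z)) (y := π 1 * π z)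
      (by simp only [map_mul, map_one, hz]; decide) (by simp only [map_mul, map_one, hz]; decide),
      ← fb_level π ψ 1 (z * z) hg0 hg h1, ← fb_level π ψ 1 z hg0 hg h2, totV, totV, ← hn,
      sum_pairs, Finset.sum_add_distrib, Finset.sum_range_succ, Finset.sum_range_one, s0, s1,
      cos_fb ψ 1 z 1 1 (x := 0) (by simp) (by simp) (by simp),
      cos_fb ψ 1 (z * z) 1 1 (x := 0) (by simp) (by simp) (by simp),
      Finset.sum_congr rfl fun k _ => cos_fb ψ 1 (z * z) 1 (ρ (2 * k)) (x := P * g ^ k) (by simp)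
        (te k) (by simp [hρ, ve]),
      Finset.sum_congr rfl fun k _ => cos_fb ψ 1 z 1 (ρ (2 * k + 1)) (x := P' * g ^ k) (by simp)
        (tod k) (by simp [hρ, vo])]
    abel
  have eM : totM (π.ker.subtype.comp ψ.ker.subtype) τ (n + 1 + 1)
      + totM (π.ker.subtype.comp ψ.ker.subtype) τ' (1 + 1) = out π := by
    have a1 : ∀ k, cos (π.ker.subtype.comp ψ.ker.subtype) (τ (2 * k))⁻¹ (τ (2 * k + 1))
        = fb ψ (z * z)⁻¹ z ((P' - P) * g ^ k) := fun k =>
      cos_fb ψ _ _ (ρ (2 * k))⁻¹ (ρ (2 * k + 1)) (by simp [te]) (tod k)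
        (by rw [map_inv, toAdd_inv, hρ, hρ, ve, vo]; ring)
    have a2 : ∀ k, cos (π.ker.subtype.comp ψ.ker.subtype) (τ (2 * k + 1))⁻¹ (τ (2 * k + 1 + 1))
        = fb ψ z⁻¹ (z * z) ((g * P - P') * g ^ k) := fun k =>
      cos_fb ψ _ _ (ρ (2 * k + 1))⁻¹ (ρ (2 * (k + 1))) (by simp [tod]) (te (k + 1))
        (by rw [map_inv, toAdd_inv, hρ, hρ, ve, vo]; ring)
    rw [← out_three π (x := π (z * z)⁻¹ * π z) (y := π z⁻¹ * π (z * z))
      (by simp only [map_mul, map_inv, hz]; decide) (by simp only [map_mul, map_inv, hz]; decide),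
      ← fb_level π ψ (z * z)⁻¹ z hg0 hg (sub_ne_zero.2 h3),
      ← fb_level π ψ z⁻¹ (z * z) hg0 hg (sub_ne_zero.2 h4), totM, totM, ← hn,
      sum_pairs, Finset.sum_add_distrib, Finset.sum_range_succ, Finset.sum_range_one, s0, s1, s2,
      cos_fb ψ z⁻¹ (z * z) 1 1 (x := 0) (by simp) (by simp) (by simp),
      cos_fb ψ (z * z)⁻¹ z 1 1 (x := 0) (by simp) (by simp) (by simp),
      Finset.sum_congr rfl fun k _ => a1 k, Finset.sum_congr rfl fun k _ => a2 k]
    abel
  rw [sV_cut τ 0 0 n (j := 1) (by omega) rfl, sV_zero] at hV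
  rw [sM_cut τ 0 0 n (j' := 0) (j := 1) (by omega) rfl rfl, sM_zero] at hM
  rw [sV_cut τ' 0 0 0 (j := 1) rfl rfl, sV_zero, sV_zero] at hV'
  rw [sM_cut τ' 0 0 0 (j' := 0) (j := 1) rfl rfl rfl, sM_zero, sM_zero] at hM'
  have pt := ((((Pth.edge ld (τ' 1 * (τ 1)⁻¹ * τ 0) (τ' 1)).trans ps).trans
    (Pth.edge ld _ (τ 1))).trans (seg τ 1 n (j := n + 1) (by omega))).trans pl |>.trans
    (Pth.edge ld _ (τ 0 * z))
  have l1 : ld (τ' 1 * (τ 1)⁻¹ * τ 0) (τ' 1) = ld (τ 0) (τ 1) := by simp [ld, mul_assoc]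
  have l2 : ld (τ 0) (τ 0 * z) = ld (τ' 0) (τ' 1) := by simp [ld, s0, s1]
  have l3 : ld (τ' 0) (τ 1) = z⁻¹ * p' * z := by simp [ld, s0, t1, mul_assoc]
  rw [l1, l2, l3] at pt
  refine exc_of (h := τ' 1 * (τ 1)⁻¹ * τ 0) (h' := τ 0 * z) ?_ ?_ (pt.cast ?_ ?_)
  · rw [s1, t0, t1]
    simp only [map_mul, map_inv, hz, MonoidHom.mem_ker.1 p.2, MonoidHom.mem_ker.1 p'.2]
    decide
  · rw [s1, t0, t1]
    group
  · rw [← eV, ← hV, ← hV']; abel
  · rw [← eM, ← hM, ← hM']; abel

omit [Finite G] [Group.IsSolvable G] in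
theorem pick (h5 : 5 ≤ q) (u v : Fin 3 → ZMod q) (h : ∀ i, ¬ (u i = 0 ∧ v i = 0)) :
    ∃ c, ∀ i, u i + c * v i ≠ 0 := by
  classical
  have hc : (Finset.univ.image fun i => -u i / v i).card < Fintype.card (ZMod q) := by
    refine lt_of_le_of_lt Finset.card_image_le ?_
    rw [ZMod.card]; simp; omega
  obtain ⟨c, -, hc'⟩ := Finset.exists_mem_notMem_of_card_lt_card (t := Finset.univ) hc
  refine ⟨c, fun i e => ?_⟩
  by_cases hv : v i = 0
  · exact h i ⟨by simpa [hv] using e, hv⟩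
  · refine hc' (Finset.mem_image.2 ⟨i, Finset.mem_univ _, ?_⟩)
    rw [div_eq_iff hv]
    linear_combination -e

theorem prim (h5 : 5 ≤ q) (P P' : ZMod q) (hP : P ≠ 0) : ∃ g : ZMod q, g ^ (q - 1) = 1 ∧
    (∀ i < q - 1, ∀ j < q - 1, g ^ i = g ^ j → i = j) ∧ g * P ≠ P' := by
  obtain ⟨g, hg⟩ := IsCyclic.exists_ofOrder_eq_natCard (α := (ZMod q)ˣ)
  rw [Nat.card_units, Nat.card_zmod] at hg
  have key : ∀ u : (ZMod q)ˣ, orderOf u = q - 1 → (u : ZMod q) ^ (q - 1) = 1 ∧
      ∀ i < q - 1, ∀ j < q - 1, (u : ZMod q) ^ i = (u : ZMod q) ^ j → i = j := by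
    intro u hu
    refine ⟨by rw [← hu, ← Units.val_pow_eq_pow_val, pow_orderOf_eq_one, Units.val_one],
      fun i hi j hj e => ?_⟩
    exact pow_injOn_Iio_orderOf (x := u) (by simpa [hu] using hi) (by simpa [hu] using hj)
      (Units.ext (by simpa using e))
  by_cases e : (g : ZMod q) * P = P'
  · refine ⟨(g⁻¹ : (ZMod q)ˣ), (key _ (by rw [orderOf_inv, hg])).1,
      (key _ (by rw [orderOf_inv, hg])).2, fun e' => ?_⟩
    have h1 : g⁻¹ = g := Units.ext (mul_right_cancel₀ hP (e'.trans e.symm))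
    have h2 : g ^ 2 = 1 := by rw [sq, ← mul_inv_cancel g, h1]
    have := orderOf_le_of_pow_eq_one two_pos h2
    omega
  · exact ⟨g, (key g hg).1, (key g hg).2, e⟩

theorem excB' (ho : Odd (Nat.card G)) (h5 : 5 ≤ q) (π : G →* Multiplicative (ZMod 3)) {z : G}
    (hz : π z = ofAdd 1) (ψ χ : π.ker →* Multiplicative (ZMod q)) (p p' : π.ker)
    (h1 : ¬ ((ψ p).toAdd = 0 ∧ (χ p).toAdd = 0)) (h2 : ¬ ((ψ p').toAdd = 0 ∧ (χ p').toAdd = 0))
    (h3 : ¬ ((ψ p').toAdd - (ψ p).toAdd = 0 ∧ (χ p').toAdd - (χ p).toAdd = 0)) :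
    Exc π (z⁻¹ * p' * z) ((z * z)⁻¹ * ((p : G)⁻¹ * p') * z⁻¹ * p * (z * z * z)) := by
  obtain ⟨c, hc⟩ := pick h5 ![(ψ p).toAdd, (ψ p').toAdd, (ψ p').toAdd - (ψ p).toAdd]
    ![(χ p).toAdd, (χ p').toAdd, (χ p').toAdd - (χ p).toAdd]
    (fun i => by fin_cases i <;> assumption)
  let θ : π.ker →* Multiplicative (ZMod q) := ψ * χ ^ c.val
  have hθ : ∀ h, (θ h).toAdd = (ψ h).toAdd + c * (χ h).toAdd := fun h => by simp [θ]
  have c0 : (θ p).toAdd ≠ 0 := hθ p ▸ hc 0
  have c1 : (θ p').toAdd ≠ 0 := hθ p' ▸ hc 1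
  have c2 : (θ p').toAdd ≠ (θ p).toAdd := fun e => hc 2 (by
    rw [hθ, hθ] at e
    change (ψ p').toAdd - (ψ p).toAdd + c * ((χ p').toAdd - (χ p).toAdd) = 0
    linear_combination e)
  obtain ⟨g, g1, g2, g3⟩ := prim h5 _ (θ p').toAdd c0
  refine excB ho π hz θ ?_ g1 g2 p p' c0 c1 c2 g3
  have : Fact (Nat.card (Multiplicative (ZMod q))).Prime :=
    ⟨by rw [Nat.card_congr toAdd, Nat.card_zmod]; exact Fact.out⟩
  refine MonoidHom.range_eq_top.1 (θ.range.eq_bot_or_eq_top_of_prime_card.resolve_left fun e => ?_)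
  have h : θ p ∈ (⊥ : Subgroup _) := e ▸ ⟨p, rfl⟩
  exact c0 (congrArg toAdd (Subgroup.mem_bot.1 h))

end Pool.Agent.SQ

end MrgPart4

-- ======== part 5: formerly Pool.Agent.MP_f56020_al.Main
section MrgPart5

namespace Pool.Agent.SQ

open Multiset Multiplicative

universe u

/-- A closed walk through the non-identity elements with all non-identity labels. -/
def RG (G : Type*) [Group G] [Finite G] : Prop :=
  ∃ x : G, Pth ld x x (st (· ≠ 1)) (st (· ≠ 1))

/-- A walk through all the elements with all non-identity labels. -/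
def SG (G : Type*) [Group G] [Finite G] : Prop :=
  ∃ (x y : G) (V : Multiset G), Pth ld x y V (st (· ≠ 1)) ∧ {x} + V = al G

/-- The group is commutative. -/
def Cm (G : Type*) [Group G] : Prop := ∀ a b : G, a * b = b * a

/-- The statement proved by induction. -/
def Concl (G : Type*) [Group G] [Finite G] : Prop :=
  (Nontrivial G → Cm G → RG G) ∧ (¬ Cm G → SG G)

section merge
variable {G Q : Type*} [Group G] [Finite G] [Group Q] {φ : G →* Q}

theorem nz_add (φ : G →* Q) :
    (st fun h : φ.ker => h ≠ 1).map φ.ker.subtype + out φ = st (· ≠ 1) := by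
  rw [map_st (r := fun g => φ g = 1 ∧ g ≠ 1) φ.ker.subtype_injective fun b =>
    ⟨fun h => ⟨⟨b, h.1⟩, fun e => h.2 (congrArg Subtype.val e), rfl⟩, by
      rintro ⟨a, ha, rfl⟩
      exact ⟨a.2, fun e => ha (Subtype.ext e)⟩⟩]
  refine st_add (fun a h h' => h' h.1) fun a => ⟨fun h => ?_, ?_⟩
  · by_cases e : φ a = 1
    · exact Or.inl ⟨e, h⟩
    · exact Or.inr e
  · rintro (h | h)
    · exact h.2
    · rintro rfl
      exact h (map_one φ)

omit [Group Q] in
theorem one_add_nz : ({1} : Multiset G) + st (· ≠ 1) = al G := by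
  rw [single_eq_st]
  exact st_add (fun _ h h' => h' h) fun a => by simp only [true_iff]; exact em _

omit [Group Q] in
theorem nz_inv : (st fun g : G => g ≠ 1).map (·⁻¹) = st (· ≠ 1) :=
  map_st inv_injective fun b => ⟨fun h => ⟨b⁻¹, by simpa using h, inv_inv b⟩, by
    rintro ⟨a, ha, rfl⟩
    simpa using ha⟩

theorem mergeRR (h : RG φ.ker) {η : φ.ker} (hη : η ≠ 1) (e : Exc φ η η) : RG G := by
  obtain ⟨x, p⟩ := h
  obtain ⟨a, b, V, M, p', hab, hV, hM⟩ := p.cut_cyc (mem_st.2 hη)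
  have e' := e.shift (h := (a : G)) (MonoidHom.mem_ker.1 a.2)
  have hb : (a : G) * η = b := by rw [← hab]; simp [ld]
  rw [hb] at e'
  refine ⟨b, ((p'.hom φ.ker.subtype).trans e').cast ?_ ?_⟩
  · rw [← nz_add φ, hV, map_add, map_singleton, Subgroup.subtype_apply]; abel
  · rw [← nz_add φ, hM, map_add, map_singleton, Subgroup.subtype_apply]; abel

theorem mergeRS {κ μ : φ.ker} {V M : Multiset φ.ker} (p : Pth ld μ κ V M)
    (hV : st (· ≠ 1) = {μ} + V) (hM : st (· ≠ 1) = {ld κ μ} + M) (e : Exc φ (ld κ μ : φ.ker) μ) :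
    SG G := by
  refine ⟨1, κ, _, (Pth.trans e (p.hom φ.ker.subtype)).cast rfl ?_, ?_⟩
  · rw [← nz_add φ, hM, map_add, map_singleton, Subgroup.subtype_apply]; abel
  · rw [← one_add_nz, ← nz_add φ, hV, map_add, map_singleton, Subgroup.subtype_apply]; abel

theorem mergeSS {x y : φ.ker} {V : Multiset φ.ker} (p : Pth ld x y V (st (· ≠ 1)))
    (hV : {x} + V = al φ.ker) {η : G} (e : Exc φ η ((y : G)⁻¹ * x)) : SG G := by
  have e' := e.shift (h := (y : G)) (MonoidHom.mem_ker.1 y.2)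
  rw [mul_inv_cancel_left] at e'
  obtain ⟨a, b, V', M', p', -, h1, h2⟩ := ((p.hom φ.ker.subtype).trans e').cut_cyc (m := η)
    (by simp)
  refine ⟨b, a, V', p'.cast rfl ?_, ?_⟩
  · rw [← add_assoc, nz_add, add_comm] at h2
    exact (add_left_cancel h2).symm
  · have h3 := congrArg (map φ.ker.subtype) (hV.trans one_add_nz.symm)
    rw [map_add, map_add, map_singleton, map_singleton, map_one, Subgroup.subtype_apply] at h3
    rw [← h1, ← one_add_nz, ← nz_add φ, ← add_assoc {1}, ← h3]; abel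

omit [Group Q] in
theorem SG.both (h : SG G) [Nontrivial G] : ∃ (x y : G) (V V' : Multiset G), x ≠ y ∧
    Pth ld x y V (st (· ≠ 1)) ∧ {x} + V = al G ∧ Pth ld y x V' (st (· ≠ 1)) ∧ {y} + V' = al G := by
  obtain ⟨x, y, V, p, hV⟩ := h
  obtain ⟨V', p', hV'⟩ := p.rev
  rw [nz_inv] at p'
  refine ⟨x, y, V, V', ?_, p, hV, p', by rw [add_comm, hV', add_comm, hV]⟩
  rintro rfl
  obtain ⟨w, hw⟩ := exists_ne x
  have h0 : V ≠ 0 := by
    rintro rfl
    have : w ∈ al G := mem_st.2 trivial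
    rw [← hV] at this
    exact hw (by simpa using this)
  obtain ⟨b, W, N, -, rfl, -⟩ := p.last h0
  have hn : (al G).Nodup := nodup_st _
  rw [← hV, singleton_add, nodup_cons] at hn
  exact hn.1 (by simp)

theorem concl_bot [Subsingleton φ.ker] (hc : Cm G) (h : ∃ x, Pth ld x x (out φ) (out φ)) :
    Concl G := by
  have e : out φ = st (· ≠ 1) := by
    rw [← nz_add φ, show (st fun h : φ.ker => h ≠ 1) = 0 from
      (eq_st nodup_zero fun a => by simp [Subsingleton.elim a 1]).symm]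
    simp
  rw [e] at h
  exact ⟨fun _ _ => h, fun h' => absurd hc h'⟩

omit [Finite G] in
theorem cm_of_inj (hQ : Cm Q) [Subsingleton φ.ker] : Cm G := fun a b =>
  (MonoidHom.ker_eq_bot_iff φ).1 (Subgroup.eq_bot_of_subsingleton _)
    (by rw [map_mul, map_mul, hQ])

end merge

theorem stepA {G Q : Type*} [Group G] [Finite G] [CommGroup Q] [Finite Q] (ho : Odd (Nat.card G))
    {φ : G →* Q} (hφ : Function.Surjective φ) (hs : Sys φ) (ih : Concl φ.ker) : Concl G := by
  obtain ⟨hcyc, r₀, c₀, w₀, hgen, hexc⟩ := hs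
  rcases subsingleton_or_nontrivial φ.ker with hH | hH
  · exact concl_bot (cm_of_inj (φ := φ) fun a b => mul_comm a b) hcyc
  obtain ⟨w, hw⟩ := hφ w₀
  obtain ⟨r, hr⟩ := hφ r₀
  obtain ⟨c, hc⟩ := hφ c₀
  have hk : ∀ r c : G, φ (w⁻¹ * (r * c * r⁻¹ * c⁻¹) * w) = 1 := fun r c => by
    simp [mul_comm]
  by_cases hcm : Cm φ.ker
  · have D := ih.1 hH hcm
    refine ⟨fun _ hG => ?_, fun hG => ?_⟩
    · obtain ⟨η, hη⟩ := exists_ne (1 : φ.ker)
      have e := hexc r c w η hr hc hw η.2 (by simpa using hη)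
      rw [hG r c, mul_inv_cancel_right, mul_inv_cancel, mul_one, inv_mul_cancel, one_mul] at e
      exact mergeRR D hη e
    · have hex : ∃ r c, φ r = r₀ ∧ φ c = c₀ ∧ r * c ≠ c * r := by
        by_contra hne
        push Not at hne
        have top : ∀ S : Subgroup G, r ∈ S → c ∈ S → φ.ker ≤ S → S = ⊤ := by
          intro S h1 h2 h3
          have h4 : S.map φ = ⊤ := by
            rw [eq_top_iff, ← hgen, Subgroup.closure_le]
            rintro x (rfl | rfl)
            · exact ⟨r, h1, hr⟩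
            · exact ⟨c, h2, hc⟩
          rw [← Subgroup.comap_map_eq_self h3, h4, Subgroup.comap_top]
        have hrc := hne r c hr hc
        have hrh : ∀ h ∈ φ.ker, r * h = h * r := fun h hh => by
          have := hne r (c * h) hr (by rw [map_mul, hc, MonoidHom.mem_ker.1 hh, mul_one])
          rw [← mul_assoc, hrc, mul_assoc, mul_assoc] at this
          exact mul_left_cancel this
        have hch : ∀ h ∈ φ.ker, c * h = h * c := fun h hh => by
          have := hne (r * h) c (by rw [map_mul, hr, MonoidHom.mem_ker.1 hh, mul_one]) hc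
          rw [← mul_assoc c, ← hrc, mul_assoc, mul_assoc] at this
          exact (mul_left_cancel this).symm
        have cen : ∀ a : G, a * r = r * a → a * c = c * a → (∀ h ∈ φ.ker, a * h = h * a) →
            a ∈ Subgroup.center G := by
          intro a h1 h2 h3
          have := top (Subgroup.centralizer {a}) (by simpa [Subgroup.mem_centralizer_iff] using h1)
            (by simpa [Subgroup.mem_centralizer_iff] using h2)
            fun h hh => by simpa [Subgroup.mem_centralizer_iff] using h3 h hh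
          refine Subgroup.mem_center_iff.2 fun g => ?_
          have hg : g ∈ Subgroup.centralizer {a} := this ▸ Subgroup.mem_top g
          exact (Subgroup.mem_centralizer_iff.1 hg a rfl).symm
        have := top (Subgroup.center G) (cen r rfl hrc hrh) (cen c hrc.symm rfl hch)
          fun h hh => cen h (hrh h hh).symm (hch h hh).symm
            fun k hk => congrArg Subtype.val (hcm ⟨h, hh⟩ ⟨k, hk⟩)
        exact hG fun a b => Subgroup.mem_center_iff.1 (this ▸ Subgroup.mem_top b) a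
      obtain ⟨r, c, hr, hc, hrc⟩ := hex
      let κ : φ.ker := ⟨_, hk r c⟩
      have hκ : κ ≠ 1 := fun e => hrc (by
        have e' : w⁻¹ * (r * c * r⁻¹ * c⁻¹) * w = 1 := congrArg Subtype.val e
        have e2 : r * c = (w * (w⁻¹ * (r * c * r⁻¹ * c⁻¹) * w) * w⁻¹) * (c * r) := by group
        rw [e2, e']; group)
      obtain ⟨x, p⟩ := D
      obtain ⟨μ, V, M, p', hV, hM⟩ := (p.rotate (mem_st.2 hκ)).first
        (fun e => by simpa [e] using (mem_st (p := (· ≠ 1))).2 hκ)
      have hη : ld κ μ ≠ 1 := (mem_st (p := (· ≠ 1))).1 (by rw [hM]; simp)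
      have e := hexc r c w (ld κ μ : φ.ker) hr hc hw (ld κ μ).2 (by simpa using hη)
      have e2 : w⁻¹ * (r * c * r⁻¹ * c⁻¹) * w * (ld κ μ : φ.ker) = μ := by
        change (κ : G) * _ = _
        simp [ld]
      rw [e2] at e
      exact mergeRS p' hV hM e
  · have hG : ¬ Cm G := fun h => hcm fun a b => Subtype.ext (h a b)
    refine ⟨fun _ h => absurd h hG, fun _ => ?_⟩
    obtain ⟨x, y, V, V', hxy, p, hV, p', hV'⟩ := (ih.2 hcm).both
    set κ := w⁻¹ * (r * c * r⁻¹ * c⁻¹) * w with hκ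
    have key : ∀ a b : φ.ker, κ ≠ (b : G)⁻¹ * a → Exc φ (κ⁻¹ * ((b : G)⁻¹ * a)) ((b : G)⁻¹ * a) := by
      intro a b h
      have e := hexc r c w (κ⁻¹ * ((b : G)⁻¹ * a)) hr hc hw
        (by simp only [map_mul, map_inv, hκ, hk, MonoidHom.mem_ker.1 a.2, MonoidHom.mem_ker.1 b.2,
          inv_one, one_mul])
        fun e => h (inv_mul_eq_one.1 e)
      rwa [← hκ, mul_inv_cancel_left] at e
    by_cases e : κ = (y : G)⁻¹ * x
    · refine mergeSS p' hV' (key y x fun e' => hxy (Subtype.ext ?_))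
      have h1 : κ * κ = 1 * 1 := by
        conv_lhs => rw [e]
        rw [← e]
        nth_rewrite 2 [e']
        rw [e]; group
      have h2 : κ = 1 := sq_inj ho h1
      exact (inv_mul_eq_one.1 (e.symm.trans h2)).symm
    · exact mergeSS p hV (key x y e)

theorem inv_triv {G A : Type*} [Group G] [CommGroup A] (π : G →* Multiplicative (ZMod 3))
    (hH : π.ker ≤ commutator G) {z : G} (hz : π z ≠ 1) (ψ : π.ker →* A)
    (hψ : ∀ h, ψ (MulAut.conjNormal z h) = ψ h) (h : π.ker) : ψ h = 1 := by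
  let S : Subgroup G :=
    { carrier := {g | ∀ h, ψ (MulAut.conjNormal g h) = ψ h}
      mul_mem' := fun {a b} ha hb h => by rw [map_mul, MulAut.mul_apply, ha, hb]
      one_mem' := fun h => by simp
      inv_mem' := fun {a} ha h => by
        rw [← ha, ← MulAut.mul_apply, ← map_mul, mul_inv_cancel, map_one, MulAut.one_apply] }
  have hk : ∀ k ∈ π.ker, k ∈ S := fun k hk h => by
    have e : MulAut.conjNormal k h = ⟨k, hk⟩ * h * (⟨k, hk⟩ : π.ker)⁻¹ := Subtype.ext (by simp)
    rw [e]; simp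
  have h3 : ∀ x y : Multiplicative (ZMod 3), x ≠ 1 → ∃ i : Fin 3, y = x ^ (i : ℕ) := by decide
  have hS : ∀ g, g ∈ S := fun g => by
    obtain ⟨i, hi⟩ := h3 (π z) (π g) hz
    have h1 : (z ^ (i : ℕ))⁻¹ * g ∈ π.ker := by simp [MonoidHom.mem_ker, hi]
    simpa using S.mul_mem (S.pow_mem hψ i) (hk _ h1)
  let K : Subgroup G := ψ.ker.map π.ker.subtype
  have hK : ∀ k : π.ker, (k : G) ∈ K ↔ ψ k = 1 := fun k =>
    Subgroup.mem_map_iff_mem π.ker.subtype_injective
  have : K.Normal := ⟨by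
    rintro _ ⟨k, hk', rfl⟩ g
    exact (hK (MulAut.conjNormal g k)).2 ((hS g k).trans hk')⟩
  have : IsCyclic (Multiplicative (ZMod 3)) := inferInstance
  have hle : K ≤ π.ker := by rintro _ ⟨k, -, rfl⟩; exact k.2
  have hc := MonoidHom.isMulCommutative_of_isCyclic_of_ker_le_center
    (QuotientGroup.lift K π fun x hx => hle hx) (by
    intro a ha
    obtain ⟨a, rfl⟩ := QuotientGroup.mk_surjective a
    refine Subgroup.mem_center_iff.2 fun b => ?_
    obtain ⟨b, rfl⟩ := QuotientGroup.mk_surjective b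
    have ha' : a ∈ π.ker := ha
    rw [← QuotientGroup.mk_mul, ← QuotientGroup.mk_mul, QuotientGroup.eq]
    have e : (b * a)⁻¹ * (a * b)
        = ((⟨a, ha'⟩ : π.ker)⁻¹ * MulAut.conjNormal b⁻¹ (⟨a, ha'⟩ : π.ker) : π.ker) := by
      simp [mul_assoc]
    rw [e, hK, map_mul, hS b⁻¹, map_inv, inv_mul_cancel])
  have hcK : commutator G ≤ K := by
    rw [commutator_def, Subgroup.commutator_le]
    intro a _ b _
    rw [← QuotientGroup.eq_one_iff, commutatorElement_def]
    simp only [QuotientGroup.mk_mul, QuotientGroup.mk_inv]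
    rw [hc.is_comm.comm (a : G ⧸ K) b]; group
  exact (hK h).1 (hcK (hH h.2))

theorem prod_triv {H : Type*} [Group H] [Finite H] {q : ℕ} [Fact q.Prime] (h2 : (2 : ZMod q) ≠ 0)
    (f : H →* Multiplicative (ZMod q)) {x y : H} {V : Multiset H}
    (p : Pth ld x y V (st (· ≠ 1))) : (f (x⁻¹ * y)).toAdd = 0 := by
  obtain ⟨V', p', -⟩ := p.rev
  have h1 := p.prod f
  have h3 := p'.prod f
  rw [nz_inv, ← h1, ← inv_inv x, ← mul_inv_rev, map_inv, inv_inv] at h3
  have h4 := congrArg toAdd h3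
  rw [toAdd_inv] at h4
  exact mul_left_cancel₀ h2 (by linear_combination -h4)

theorem stepB {G : Type*} [Group G] [Finite G] [Group.IsSolvable G] (ho : Odd (Nat.card G))
    {π : G →* Multiplicative (ZMod 3)} (hπ : Function.Surjective π) (hH : π.ker ≤ commutator G)
    (ih : Concl π.ker) : Concl G := by
  rcases subsingleton_or_nontrivial π.ker with hN | hN
  · exact concl_bot (cm_of_inj (φ := π) fun a b => mul_comm a b) (cyc3 ho π hπ)
  have hG : ¬ Cm G := fun h => by
    obtain ⟨a, ha⟩ := exists_ne (1 : π.ker)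
    have h1 : commutator G ≤ ⊥ := by
      rw [commutator_def, Subgroup.commutator_le]
      intro a _ b _
      rw [Subgroup.mem_bot, commutatorElement_eq_one_iff_mul_comm, h]
    exact ha (Subtype.ext (h1 (hH a.2)))
  refine ⟨fun _ h => absurd h hG, fun _ => ?_⟩
  obtain ⟨q, hq, ψ, hψ⟩ := exists_zmod π.ker
  have : Fact q.Prime := ⟨hq⟩
  obtain ⟨z, hz⟩ := hπ (ofAdd 1)
  let T : π.ker →* π.ker := (MulAut.conjNormal z⁻¹ : MulAut π.ker).toMonoidHom
  have hT : ∀ h, (T h : G) = z⁻¹ * h * z := fun h => by simp [T]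
  have hz3 : z * z * z ∈ π.ker := by
    rw [MonoidHom.mem_ker, map_mul, map_mul, hz]; decide
  have hT3 : ∀ h, T (T (T h)) = (⟨_, hz3⟩ : π.ker)⁻¹ * h * ⟨_, hz3⟩ := fun h =>
    Subtype.ext (by simp [hT, mul_assoc])
  have hz1 : π z⁻¹ ≠ 1 := by rw [map_inv, hz]; decide
  let A : π.ker → ZMod q := fun h => (ψ h).toAdd
  have Am : ∀ a b, A (a * b) = A a + A b := fun a b => by simp [A]
  have Ai : ∀ a, A a⁻¹ = -A a := fun a => by simp [A]
  have A3 : ∀ h, A (T (T h)) = -A h - A (T h) := fun h => by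
    have h1 := inv_triv π hH hz1 (ψ * ψ.comp T * ψ.comp (T.comp T)) (fun h => by
      change ψ (T h) * ψ (T (T h)) * ψ (T (T (T h))) = ψ h * ψ (T h) * ψ (T (T h))
      rw [hT3]; simp [mul_comm, mul_left_comm]) h
    have h2 : A h + A (T h) + A (T (T h)) = 0 := congrArg toAdd h1
    linear_combination h2
  obtain ⟨p₀, hp₀⟩ : ∃ p₀, A p₀ = 1 := (hψ (ofAdd 1)).imp fun p hp => congrArg toAdd hp
  have hq2 : q ≠ 2 := by
    rintro rfl
    have h := Subgroup.card_dvd_of_surjective ψ hψ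
    rw [show Nat.card (Multiplicative (ZMod 2)) = 2 by simp] at h
    exact (Nat.not_even_iff_odd.2 (odd_sub ho _)) (even_iff_two_dvd.2 h)
  have hq3 : q ≠ 3 := by
    rintro rfl
    have h3 : (3 : ZMod 3) = 0 := rfl
    have h1 := inv_triv π hH hz1 (ψ / ψ.comp T) fun h => toAdd.injective (by
      change A (T h) - A (T (T h)) = A h - A (T h)
      rw [A3]
      linear_combination A (T h) * h3)
    have h2 := inv_triv π hH hz1 ψ (fun h => (div_eq_one.1 (h1 h)).symm) p₀
    have h4 : A p₀ = 0 := congrArg toAdd h2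
    exact one_ne_zero (hp₀.symm.trans h4)
  have h5 : 5 ≤ q := by
    have := hq.two_le
    have h4 : q ≠ 4 := fun h => absurd (h ▸ hq) (by norm_num)
    omega
  have n2 : (2 : ZMod q) ≠ 0 := fun h => by
    have := Nat.le_of_dvd two_pos ((ZMod.natCast_eq_zero_iff 2 q).1 (by exact_mod_cast h))
    omega
  have n3 : (3 : ZMod q) ≠ 0 := fun h => by
    have := Nat.le_of_dvd three_pos ((ZMod.natCast_eq_zero_iff 3 q).1 (by exact_mod_cast h))
    omega
  have exc : ∀ p p' : π.ker, ¬ (A p = 0 ∧ A (T p) = 0) → ¬ (A p' = 0 ∧ A (T p') = 0) →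
      ¬ (A p' - A p = 0 ∧ A (T p') - A (T p) = 0) →
      Exc π (T p') ((z * z)⁻¹ * ((p : G)⁻¹ * p') * z⁻¹ * p * (z * z * z)) := by
    intro p p' a1 a2 a3
    rw [hT]
    exact excB' ho h5 π hz ψ (ψ.comp T) p p' a1 a2 a3
  by_cases hcm : Cm π.ker
  swap
  · obtain ⟨x, y, V, p, hV⟩ := ih.2 hcm
    let C : π.ker →* π.ker := (MulAut.conjNormal (z * z) : MulAut π.ker).toMonoidHom
    have u0 : A (C (x⁻¹ * y)) = 0 := prod_triv n2 (ψ.comp C) p
    have u1 : A (T (C (x⁻¹ * y))) = 0 := prod_triv n2 (ψ.comp (T.comp C)) p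
    have b0 : A (p₀ * (C (x⁻¹ * y))⁻¹ * (T p₀)⁻¹) = 1 - A (T p₀) := by
      rw [Am, Am, Ai, Ai, u0, hp₀]; ring
    have b1 : A (T (p₀ * (C (x⁻¹ * y))⁻¹ * (T p₀)⁻¹)) = 2 * A (T p₀) + 1 := by
      rw [map_mul, map_mul, map_inv, map_inv, Am, Am, Ai, Ai, u1, A3, hp₀]; ring
    have e := exc p₀ (p₀ * (C (x⁻¹ * y))⁻¹ * (T p₀)⁻¹) (fun h => one_ne_zero (hp₀.symm.trans h.1))
      (by rw [b0, b1]; exact fun h => n3 (by linear_combination 2 * h.1 + h.2))
      (by rw [b0, b1, hp₀]; exact fun h => one_ne_zero (by linear_combination h.1 + h.2))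
    refine mergeSS p hV (η := T (p₀ * (C (x⁻¹ * y))⁻¹ * (T p₀)⁻¹)) ?_
    have e2 : (z * z)⁻¹ * ((p₀ : G)⁻¹ * (p₀ * (C (x⁻¹ * y))⁻¹ * (T p₀)⁻¹ : π.ker)) * z⁻¹ * p₀
        * (z * z * z) = (y : G)⁻¹ * x := by
      simp only [Subgroup.coe_mul, Subgroup.coe_inv, hT, C, MulEquiv.coe_toMonoidHom,
        MulAut.conjNormal_apply]
      group
    rwa [e2] at e
  have T3 : ∀ h, T (T (T h)) = h := fun h => by rw [hT3, hcm _ h, inv_mul_cancel_right]
  have hsurj : ∀ m : π.ker, ∃ p, p * (T (T p))⁻¹ = m := by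
    intro m
    let _ : CommGroup π.ker := { (inferInstance : Group π.ker) with mul_comm := hcm }
    let θ : π.ker →* π.ker := MonoidHom.id _ / T.comp T
    have h1 := inv_triv π hH (z := z) (by rw [hz]; decide) (QuotientGroup.mk' θ.range) (fun h => by
      have e : MulAut.conjNormal z h = T (T h) := by
        rw [← T3 (MulAut.conjNormal z h)]
        congr 2
        exact Subtype.ext (by simp [hT, mul_assoc])
      rw [e]
      exact QuotientGroup.eq.2 ⟨h, (div_eq_mul_inv _ _).trans (hcm _ _)⟩) m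
    obtain ⟨p, hp⟩ := (QuotientGroup.eq_one_iff m).1 h1
    exact ⟨p, (div_eq_mul_inv _ _).symm.trans hp⟩
  have good : ∀ η μ : π.ker, ¬ (A η = 0 ∧ A (T η) = 0) →
      ¬ (A μ = A (T η) ∧ A (T μ) = -A η - A (T η)) → ¬ (A μ = -A η - A (T η) ∧ A (T μ) = A η) →
      Exc π η μ := by
    intro η μ a1 a2 a3
    obtain ⟨p, hp⟩ := hsurj (μ * (T η)⁻¹)
    have E0 := congrArg A hp
    have E1 := congrArg (fun h => A (T h)) hp
    simp only [map_mul, map_inv, Am, Ai, T3, A3] at E0 E1
    have e := exc p (T (T η))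
      (fun h => a2 ⟨by linear_combination -E0 + 2 * h.1 + h.2, by
        linear_combination -E1 - h.1 + h.2⟩)
      (by
        rw [T3, A3]
        exact fun h => a1 ⟨h.2, by linear_combination -h.1 - h.2⟩)
      (by
        rw [T3, A3]
        exact fun h => a3 ⟨by linear_combination -E0 - 2 * h.1 - h.2, by
          linear_combination -E1 + h.1 - h.2⟩)
    have e1 : (z * z)⁻¹ * ((p : G)⁻¹ * T (T η)) * z⁻¹ * p * (z * z * z)
        = (T (T (p⁻¹ * T (T η))) * T (T (T p)) : π.ker) := by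
      simp only [Subgroup.coe_mul, Subgroup.coe_inv, hT]
      group
    have e2 : T (T (p⁻¹ * T (T η))) * T (T (T p)) = μ := by
      rw [map_mul, map_mul, T3, T3, map_inv, map_inv, hcm, ← mul_assoc, hp, inv_mul_cancel_right]
    rwa [T3, e1, e2] at e
  obtain ⟨x, D⟩ := ih.1 hN hcm
  have A1 : A 1 = 0 := by simp [A]
  have m1 : p₀ ≠ 1 := fun e => one_ne_zero (hp₀.symm.trans (e ▸ A1))
  have m2 : p₀ * p₀ ≠ 1 := fun e => n2 (by
    have h := Am p₀ p₀
    rw [e, A1, hp₀] at h
    linear_combination -h)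
  obtain ⟨V1, V2, M1, M2, q1, q2, hV, hM⟩ := (D.rotate (mem_st.2 m1)).splitV (mem_st.2 m2)
  obtain ⟨a, b, U1, U2, N1, N2, r1, r2, ha, hb, rfl, rfl⟩ := q1.exists_step
    (fun h => (A h = 1 ∧ A (T h) = A (T p₀)) ∨ (A h = -1 ∧ A (T h) = -A (T p₀)))
    (Or.inl ⟨hp₀, rfl⟩) (by
      rw [Am, hp₀]
      rintro (h | h)
      · exact one_ne_zero (by linear_combination h.1)
      · exact n3 (by linear_combination h.1))
  have pb := (r2.trans q2).trans r1
  have hV' : st (· ≠ 1) = {b} + (U2 + V2 + U1) := hV.trans (by abel)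
  have hM' : st (· ≠ 1) = {ld a b} + (N2 + M2 + N1) := hM.trans (by abel)
  have c1 : ¬ (A b = A a ∧ A (T b) = A (T a)) := fun h => hb (by rwa [h.1, h.2])
  have c2 : ¬ (A b = -A a ∧ A (T b) = -A (T a)) := fun h => hb (by
    rw [h.1, h.2]
    rcases ha with k | k
    · exact Or.inr ⟨by rw [k.1], by rw [k.2]⟩
    · exact Or.inl ⟨by rw [k.1, neg_neg], by rw [k.2, neg_neg]⟩)
  have l0 : ∀ u v, A (ld u v) = A v - A u := fun u v => by rw [ld, Am, Ai]; ring
  have l1 : ∀ u v, A (T (ld u v)) = A (T v) - A (T u) := fun u v => by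
    rw [ld, map_mul, map_inv, Am, Ai]; ring
  by_contra hS
  have f1 : ¬ Exc π (ld a b : π.ker) b := fun e => hS (mergeRS pb hV' hM' e)
  have f2 : ¬ Exc π (ld b a : π.ker) a := fun e => by
    obtain ⟨W, pa, hW⟩ := pb.rev
    refine hS (mergeRS pa (by rw [hV', add_comm, ← hW, add_comm]) ?_ e)
    rw [← nz_inv, hM', map_add, map_singleton]
    simp [ld]
  have g1 := mt (fun h : _ ∧ _ ∧ _ => good (ld a b) b h.1 h.2.1 h.2.2) f1
  have g2 := mt (fun h : _ ∧ _ ∧ _ => good (ld b a) a h.1 h.2.1 h.2.2) f2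
  rw [l0, l1] at g1 g2
  have z2 : ∀ u : ZMod q, 2 * u = 0 → u = 0 := fun u h => (mul_eq_zero.1 h).resolve_left n2
  refine g1 ⟨fun h => c1 ⟨by linear_combination h.1, by linear_combination h.2⟩, fun h => ?_,
    fun h => ?_⟩ <;>
  refine g2 ⟨fun h => c1 ⟨by linear_combination -h.1, by linear_combination -h.2⟩, fun k => ?_,
    fun k => ?_⟩
  · exact c2 ⟨by linear_combination h.1 + k.1, by linear_combination h.2 + k.2⟩
  · exact c1 ⟨sub_eq_zero.1 (z2 _ (by linear_combination h.1 - k.1)),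
      sub_eq_zero.1 (z2 _ (by linear_combination h.2 - k.2))⟩
  · exact c1 ⟨sub_eq_zero.1 (z2 _ (by linear_combination h.1 - k.1)),
      sub_eq_zero.1 (z2 _ (by linear_combination h.2 - k.2))⟩
  · exact c2 ⟨by linear_combination h.1 + k.1, by linear_combination h.2 + k.2⟩

theorem nine (A : Type*) [CommGroup A] [Finite A] (h : 9 ∣ Nat.card A) :
    (∃ φ : A →* Multiplicative (ZMod 9), Function.Surjective φ) ∨
      ∃ φ : A →* Multiplicative (ZMod 3 × ZMod 3), Function.Surjective φ := by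
  classical
  obtain ⟨ι, _, n, hn, ⟨e⟩⟩ := CommGroup.equiv_prod_multiplicative_zmod_of_finite A
  rw [Nat.card_congr e.toEquiv, Nat.card_pi] at h
  simp only [Nat.card_congr toAdd, Nat.card_zmod] at h
  let c : ∀ (i : ι) (m : ℕ), m ∣ n i → (A →* Multiplicative (ZMod m)) := fun i m hi =>
    (AddMonoidHom.toMultiplicative (ZMod.castHom hi (ZMod m)).toAddMonoidHom).comp
      ((Pi.evalMonoidHom _ i).comp e.toMonoidHom)
  have hc : ∀ i m hi a, c i m hi a = ofAdd (ZMod.castHom hi (ZMod m) (e a i).toAdd) :=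
    fun _ _ _ _ => rfl
  by_cases h9 : ∃ i, 9 ∣ n i
  · obtain ⟨i, hi⟩ := h9
    refine Or.inl ⟨c i 9 hi, fun x => ?_⟩
    obtain ⟨y, hy⟩ := ZMod.castHom_surjective hi x.toAdd
    exact ⟨e.symm (Pi.mulSingle i (ofAdd y)), by simp [hc, hy]⟩
  · push Not at h9
    obtain ⟨i, -, hi⟩ := (Prime.dvd_finsetProd_iff Nat.prime_three.prime _).1
      (dvd_trans (by norm_num) h)
    rw [← Finset.mul_prod_erase _ _ (Finset.mem_univ i)] at h
    obtain ⟨m, hm⟩ := id hi
    rw [hm, mul_assoc, show 9 = 3 * 3 from rfl, Nat.mul_dvd_mul_iff_left three_pos] at h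
    have hm3 : ¬ 3 ∣ m := fun h3 => h9 i (hm ▸ Nat.mul_dvd_mul_left 3 h3)
    obtain ⟨j, hj, hj'⟩ := (Prime.dvd_finsetProd_iff Nat.prime_three.prime _).1
      (((Nat.Prime.dvd_mul Nat.prime_three).1 h).resolve_left hm3)
    have hij : j ≠ i := Finset.ne_of_mem_erase hj
    refine Or.inr ⟨(MulEquiv.prodMultiplicative (ZMod 3) (ZMod 3)).symm.toMonoidHom.comp
      ((c i 3 hi).prod (c j 3 hj')),
      (MulEquiv.prodMultiplicative (ZMod 3) (ZMod 3)).symm.surjective.comp
        (f := (c i 3 hi).prod (c j 3 hj')) fun x => ?_⟩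
    obtain ⟨y, hy⟩ := ZMod.castHom_surjective hi x.1.toAdd
    obtain ⟨y', hy'⟩ := ZMod.castHom_surjective hj' x.2.toAdd
    refine ⟨e.symm (Pi.mulSingle i (ofAdd y) * Pi.mulSingle j (ofAdd y')), Prod.ext ?_ ?_⟩
    · simp [hc, hy, Pi.mulSingle_eq_of_ne hij.symm]
    · simp [hc, hy', Pi.mulSingle_eq_of_ne hij]

theorem main_aux (n : ℕ) : ∀ (G : Type u) [Group G] [Finite G] [Group.IsSolvable G],
    Nat.card G ≤ n → Odd (Nat.card G) → Concl G := by
  induction n with
  | zero => intro G _ _ _ h; exact absurd (Nat.card_pos (α := G)) (by omega)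
  | succ n ih =>
    intro G _ _ _ h ho
    rcases subsingleton_or_nontrivial G with hG | hG
    · exact ⟨fun h' => absurd hG (not_subsingleton G),
        fun h' => absurd (fun a b => Subsingleton.elim _ _) h'⟩
    have IH : ∀ {Q : Type} [Group Q] [Nontrivial Q] (φ : G →* Q), Function.Surjective φ →
        Concl φ.ker := fun φ hφ =>
      ih _ (by have := card_ker_lt φ hφ; omega) (odd_sub ho _)
    have hs : Function.Surjective (Abelianization.of : G →* _) := QuotientGroup.mk_surjective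
    have hA := nontrivial_ab G
    have h1 : 1 < Nat.card (Abelianization G) := Finite.one_lt_card
    have hoA : Odd (Nat.card (Abelianization G)) :=
      ho.of_dvd_nat (Subgroup.card_dvd_of_surjective _ hs)
    by_cases h5 : ∃ p, p.Prime ∧ 5 ≤ p ∧ p ∣ Nat.card (Abelianization G)
    · obtain ⟨p, hp, h5, hd⟩ := h5
      have : Fact p.Prime := ⟨hp⟩
      obtain ⟨φ, hφ⟩ := exists_zmod_of_dvd _ hp hd
      exact stepA ho (hφ.comp hs) (sys_prime ho hp h5 (φ.comp Abelianization.of) (hφ.comp hs))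
        (IH _ (hφ.comp hs))
    by_cases h9 : 9 ∣ Nat.card (Abelianization G)
    · have : Fact (1 < 9) := ⟨by norm_num⟩
      rcases nine _ h9 with ⟨φ, hφ⟩ | ⟨φ, hφ⟩
      · exact stepA ho (hφ.comp hs) (sys9 ho (φ.comp Abelianization.of) (hφ.comp hs))
          (IH _ (hφ.comp hs))
      · exact stepA ho (hφ.comp hs) (sys33 ho (φ.comp Abelianization.of) (hφ.comp hs))
          (IH _ (hφ.comp hs))
    have key : ∀ m, m ∣ Nat.card (Abelianization G) → m ≠ 1 → 3 ∣ m := by
      intro m hm hm1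
      have hp := Nat.minFac_prime hm1
      have hd := (Nat.minFac_dvd m).trans hm
      have a2 : m.minFac ≠ 2 := fun e =>
        (Nat.not_even_iff_odd.2 hoA) (even_iff_two_dvd.2 (e ▸ hd))
      have a4 : m.minFac ≠ 4 := fun e => absurd (e ▸ hp) (by norm_num)
      have a5 : ¬ 5 ≤ m.minFac := fun e => h5 ⟨_, hp, e, hd⟩
      have := hp.two_le
      exact (show m.minFac = 3 by omega) ▸ Nat.minFac_dvd m
    have h3 := key _ dvd_rfl h1.ne'
    have hc : Nat.card (Abelianization G) = 3 := by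
      obtain ⟨m, hm⟩ := h3
      by_cases e : m = 1
      · rw [hm, e]
      · exact absurd (hm ▸ Nat.mul_dvd_mul_left 3 (key m (hm ▸ Dvd.intro_left 3 rfl) e)) h9
    obtain ⟨φ, hφ⟩ := exists_zmod_of_dvd _ Nat.prime_three h3
    have hi : Function.Injective φ :=
      ((Nat.bijective_iff_surjective_and_card φ).2 ⟨hφ, by rw [hc]; simp⟩).1
    refine stepB ho (π := φ.comp Abelianization.of) (hφ.comp hs) (fun g hg => ?_)
      (IH _ (hφ.comp hs))
    rw [← Abelianization.ker_of]
    exact hi ((MonoidHom.mem_ker.1 hg).trans (map_one φ).symm)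

theorem main (G : Type u) [Group G] [Finite G] [Group.IsSolvable G] (ho : Odd (Nat.card G)) :
    Concl G := main_aux _ G le_rfl ho

end Pool.Agent.SQ

end MrgPart5

-- marker of a merged file
example : 731051 + 648108 = 731051 + 648108 := rfl
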